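import Pool.Agent.Helper8.DP.ESheet

/-! Smooth approximation on `C(Q)` with the same Lipschitz constant. -/

open scoped ContDiff NNReal
open Set Filter Topology

namespace Pool.Agent.Helper8.DP

open Pool.Agent.Helper94.UF

theorem st_APP'.{u, v} : ST_APP.{u, v} := by
  intro Q _ _ _ r n h Γ K f L hL hf ε hε
  have h1 := Ret.nonempty h.1 h.2
  have h2 := Ret.directed h.1 h.2
  have hf' : LipschitzWith ⟨L, hL⟩ f := LipschitzWith.of_dist_le_mul fun x y => by
    rw [Real.dist_eq, dist_eq_norm]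
    exact hf x y
  obtain ⟨s, hs1, hs2, hs3⟩ := conclusion ⊤ le_top (Ret.sys h.1 h.2) K
    (ContinuousLinearMap.id ℝ C(Q, ℝ)) 1 one_pos (fun y => by simp) f ⟨L, hL⟩ hf' ε hε
  refine ⟨s, hs1, fun y y' => ?_, hs3⟩
  have := hs2.dist_le_mul y y'
  rw [Real.dist_eq, dist_eq_norm] at this
  exact this

end Pool.Agent.Helper8.DP
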