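import Pool.Agent.Helper8.DP.Code

/-! The averaged map `F`, as a finite sum over codes. -/

open Set Filter Topology MeasureTheory

namespace Pool.Agent.Helper8.DP

open Pool.Agent.Helper94.UF

set_option linter.unusedSectionVars false

variable {Γ : Type*}

open Classical in
/-- The proportion of the scales in `[0, L]` at which the code equals `A`. -/
noncomputable def wq (δ L : ℝ) (A : Cd Γ) (φ : Γ → ℝ) : ℝ :=
  L⁻¹ * ∫ v in (0 : ℝ)..L, if cu δ φ v = A then (1 : ℝ) else 0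

variable {δ L : ℝ} {φ φ' : Γ → ℝ}

theorem wq_eq_zero (hL : 0 < L) {A : Cd Γ} (h : ∀ v ∈ Icc (0 : ℝ) L, cu δ φ v ≠ A) :
    wq δ L A φ = 0 := by
  classical
  have : ∫ v in (0 : ℝ)..L, (if cu δ φ v = A then (1 : ℝ) else 0) = ∫ _v in (0 : ℝ)..L, (0 : ℝ) :=
    intervalIntegral.integral_congr fun u hu => by
      rw [uIcc_of_le hL.le] at hu
      exact if_neg (h u hu)
  rw [wq, this]
  simp

theorem wq_zero_of_notMem (hδ : 0 < δ) (hL : 0 < L) (hφ : IsC0 φ) {A B : Cd Γ}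
    (hB : cu δ φ 0 ⊆ B) (h : A ∉ B.powerset) : wq δ L A φ = 0 :=
  wq_eq_zero hL fun _ hv he => h (Finset.mem_powerset.2
    (he ▸ (cu_anti hδ hφ hv.1).trans hB))

theorem tame_wq (hδ : 0 < δ) (hL : 0 < L) (A : Cd Γ) : Tame δ (wq δ L A) where
  nonneg := fun φ _ => mul_nonneg (inv_nonneg.2 hL.le)
    (intervalIntegral.integral_nonneg hL.le fun v _ => by split_ifs <;> norm_num)
  le_one := fun φ hφ => by
    classical
    have h : ∫ v in (0 : ℝ)..L, (if cu δ φ v = A then (1 : ℝ) else 0) ≤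
        ∫ _v in (0 : ℝ)..L, (1 : ℝ) :=
      intervalIntegral.integral_mono_on hL.le (ind_integrable hδ hφ A _ _)
        intervalIntegrable_const fun v _ => by split_ifs <;> norm_num
    rw [intervalIntegral.integral_const, sub_zero, smul_eq_mul, mul_one] at h
    calc wq δ L A φ ≤ L⁻¹ * L := mul_le_mul_of_nonneg_left h (inv_nonneg.2 hL.le)
      _ = 1 := inv_mul_cancel₀ hL.ne'
  lip := by
    classical
    refine ⟨L⁻¹ * (2 / δ), by positivity, fun φ φ' hφ hφ' τ hτ h => ?_⟩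
    have hκ : ∀ v ∈ Icc (0 : ℝ) L, τ ≤ δ * Real.exp v * (τ / δ) := by
      intro v hv
      have h1 : 1 ≤ Real.exp v := Real.one_le_exp hv.1
      calc τ = δ * 1 * (τ / δ) := by field_simp
        _ ≤ δ * Real.exp v * (τ / δ) := by gcongr
    have key1 : ∀ {φ φ' : Γ → ℝ}, IsC0 φ → IsC0 φ' → (∀ γ, |φ γ - φ' γ| ≤ τ) →
        (∫ v in (0 : ℝ)..L, if A ⊆ cu δ φ' v then (1 : ℝ) else 0) ≤
          (∫ v in (0 : ℝ)..L, if A ⊆ cu δ φ v then (1 : ℝ) else 0) + τ / δ := by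
      intro φ φ' hφ hφ' h
      refine shift_cmp (anti1 hδ hφ A) (anti1 hδ hφ' A) (fun u => by split_ifs <;> norm_num)
        (fun u => by split_ifs <;> norm_num) (by positivity) hL.le fun v hv => ?_
      have hsub := cu_close hδ hφ hφ' hτ h (hκ v hv)
      by_cases h1 : A ⊆ cu δ φ' (v + τ / δ)
      · rw [if_pos h1, if_pos (h1.trans hsub)]
      · rw [if_neg h1]; split_ifs <;> norm_num
    have key2 : ∀ {φ φ' : Γ → ℝ}, IsC0 φ → IsC0 φ' → (∀ γ, |φ γ - φ' γ| ≤ τ) →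
        (∫ v in (0 : ℝ)..L, if A ⊂ cu δ φ' v then (1 : ℝ) else 0) ≤
          (∫ v in (0 : ℝ)..L, if A ⊂ cu δ φ v then (1 : ℝ) else 0) + τ / δ := by
      intro φ φ' hφ hφ' h
      refine shift_cmp (anti2 hδ hφ A) (anti2 hδ hφ' A) (fun u => by split_ifs <;> norm_num)
        (fun u => by split_ifs <;> norm_num) (by positivity) hL.le fun v hv => ?_
      have hsub := cu_close hδ hφ hφ' hτ h (hκ v hv)
      by_cases h1 : A ⊂ cu δ φ' (v + τ / δ)
      · rw [if_pos h1, if_pos (lt_of_lt_of_le h1 hsub)]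
      · rw [if_neg h1]; split_ifs <;> norm_num
    have heq : ∀ {φ : Γ → ℝ}, IsC0 φ → (∫ v in (0 : ℝ)..L, if cu δ φ v = A then (1 : ℝ) else 0) =
        (∫ v in (0 : ℝ)..L, if A ⊆ cu δ φ v then (1 : ℝ) else 0) -
          ∫ v in (0 : ℝ)..L, if A ⊂ cu δ φ v then (1 : ℝ) else 0 := by
      intro φ hφ
      simp only [ind_eq]
      exact intervalIntegral.integral_sub (anti1 hδ hφ A).intervalIntegrable
        (anti2 hδ hφ A).intervalIntegrable
    have h' : ∀ γ, |φ' γ - φ γ| ≤ τ := fun γ => by rw [abs_sub_comm]; exact h γ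
    have a1 := key1 hφ hφ' h
    have a2 := key1 hφ' hφ h'
    have b1 := key2 hφ hφ' h
    have b2 := key2 hφ' hφ h'
    have e : L⁻¹ * (2 / δ) * τ = L⁻¹ * (τ / δ + τ / δ) := by ring
    rw [wq, wq, ← mul_sub, abs_mul, abs_of_pos (inv_pos.2 hL), e]
    refine mul_le_mul_of_nonneg_left ?_ (inv_nonneg.2 hL.le)
    rw [heq hφ, heq hφ', abs_sub_le_iff]
    constructor <;> linarith
  loc := fun φ φ' hφ hφ' G h h1 h2 => by
    classical
    unfold wq
    congr 1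
    refine intervalIntegral.integral_congr fun u hu => ?_
    rw [uIcc_of_le hL.le] at hu
    simp only [cu_loc hδ hφ hφ' (by linarith [hu.1] : (-2 : ℝ) ≤ u) h h1 h2]

variable {X : Type*} [NormedAddCommGroup X] [NormedSpace ℝ X] {ι : Type*} [Preorder ι]
variable {Y : Type*} [NormedAddCommGroup Y] [NormedSpace ℝ Y] {T : Y →L[ℝ] X}
variable {k : WithTop ℕ∞} {E : DPS X ι} {K : EK k Y Γ} {p : Seminorm ℝ X} {M ε : ℝ}
variable (D : Fam E K T p ε)

theorem m_pos : (0 : ℝ) < D.m := by exact_mod_cast D.m0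

/-- The average of the projections attached to a code. -/
noncomputable def G (A : Cd Γ) : X →L[ℝ] X :=
  (D.m : ℝ)⁻¹ • ∑ j ∈ Finset.range D.m, E.P (D.S j A)

theorem G_apply (A : Cd Γ) (x : X) :
    G D A x = (D.m : ℝ)⁻¹ • ∑ j ∈ Finset.range D.m, E.P (D.S j A) x := by
  simp [G]

theorem P_G {A : Cd Γ} {s : ι} (h : D.S D.m A ≤ s) (x : X) : E.P s (G D A x) = G D A x := by
  rw [G_apply, map_smul, map_sum]
  congr 1
  refine Finset.sum_congr rfl fun j hj => ?_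
  exact E.PP' _ _ ((D.mono_j A (Finset.mem_range.1 hj).le).trans h) x

theorem avg_const (x : X) : (D.m : ℝ)⁻¹ • ∑ _j ∈ Finset.range D.m, x = x := by
  have hm := m_pos D
  rw [Finset.sum_const, Finset.card_range, ← Nat.cast_smul_eq_nsmul ℝ, smul_smul,
    inv_mul_cancel₀ hm.ne', one_smul]

theorem P_G_low {A : Cd Γ} {s : ι} (h : s ≤ D.S 0 A) (x : X) : E.P s (G D A x) = E.P s x := by
  rw [G_apply, map_smul, map_sum]
  rw [Finset.sum_congr rfl fun j _ => E.PP _ _ (h.trans (D.mono_j A (Nat.zero_le j))) x]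
  exact avg_const D _

/-- The averaged map. -/
noncomputable def F (δ L : ℝ) (φ : Γ → ℝ) (x : X) : X :=
  ∑ A ∈ (cu δ φ 0).powerset, wq δ L A φ • G D A x

theorem F_eq (hδ : 0 < δ) (hL : 0 < L) (hφ : IsC0 φ) {𝒜 : Finset (Cd Γ)}
    (h : (cu δ φ 0).powerset ⊆ 𝒜) (x : X) : F D δ L φ x = ∑ A ∈ 𝒜, wq δ L A φ • G D A x := by
  rw [F]
  refine Finset.sum_subset h fun A _ hA => ?_
  rw [wq_zero_of_notMem hδ hL hφ subset_rfl hA, zero_smul]

theorem sum_ind (𝒜 : Finset (Cd Γ)) {B : Cd Γ} [DecidableEq (Cd Γ)] (hB : B ∈ 𝒜)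
    (f : Cd Γ → ℝ) : ∑ A ∈ 𝒜, (if B = A then (1 : ℝ) else 0) * f A = f B := by
  rw [Finset.sum_eq_single_of_mem B hB, if_pos rfl, one_mul]
  intro A _ hA
  rw [if_neg (Ne.symm hA), zero_mul]

/-- A function of the code is integrable. -/
theorem code_integrable (hδ : 0 < δ) (hφ : IsC0 φ) (𝒜 : Finset (Cd Γ)) (f : Cd Γ → ℝ) {a b : ℝ}
    (hab : a ≤ b) (h𝒜 : ∀ v ∈ Icc a b, cu δ φ v ∈ 𝒜) :
    IntervalIntegrable (fun v => f (cu δ φ v)) volume a b := by
  classical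
  have h1 := IntervalIntegrable.sum 𝒜 (f := fun A v => (if cu δ φ v = A then (1 : ℝ) else 0) * f A)
    (μ := volume) (a := a) (b := b) fun A _ => (ind_integrable hδ hφ A a b).mul_const (f A)
  rw [Finset.sum_fn] at h1
  refine h1.congr fun v hv => ?_
  rw [uIoc_of_le hab] at hv
  exact sum_ind 𝒜 (h𝒜 v (Ioc_subset_Icc_self hv)) f

theorem sum_int (hδ : 0 < δ) (hφ : IsC0 φ) (𝒜 : Finset (Cd Γ)) (f : Cd Γ → ℝ) {a b : ℝ}
    (hab : a ≤ b) (h𝒜 : ∀ v ∈ Icc a b, cu δ φ v ∈ 𝒜) [DecidableEq (Cd Γ)] :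
    ∑ A ∈ 𝒜, (∫ v in a..b, if cu δ φ v = A then (1 : ℝ) else 0) * f A =
      ∫ v in a..b, f (cu δ φ v) := by
  have h2 : ∫ v in a..b, f (cu δ φ v) =
      ∫ v in a..b, ∑ A ∈ 𝒜, (if cu δ φ v = A then (1 : ℝ) else 0) * f A := by
    refine intervalIntegral.integral_congr fun v hv => ?_
    rw [uIcc_of_le hab] at hv
    exact (sum_ind 𝒜 (h𝒜 v hv) f).symm
  rw [h2, intervalIntegral.integral_finsetSum fun A _ => by
    convert (ind_integrable hδ hφ A a b).mul_const (f A)]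
  refine Finset.sum_congr rfl fun A _ => ?_
  rw [intervalIntegral.integral_mul_const]

theorem psi_F_int (hδ : 0 < δ) (hL : 0 < L) (hφ : IsC0 φ) (ψ : X →ₗ[ℝ] ℝ) (x : X) :
    ψ (F D δ L φ x) = L⁻¹ * ∫ u in (0 : ℝ)..L, ψ (G D (cu δ φ u) x) := by
  classical
  have h1 := sum_int hδ hφ (cu δ φ 0).powerset (fun A => ψ (G D A x)) hL.le
    fun v hv => Finset.mem_powerset.2 (cu_anti hδ hφ hv.1)
  rw [← h1, F, map_sum, Finset.mul_sum]
  refine Finset.sum_congr rfl fun A _ => ?_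
  rw [map_smul, smul_eq_mul, wq, mul_assoc]

theorem F_fun_le (hδ : 0 < δ) (hL : 0 < L) (hφ : IsC0 φ) (ψ : X →ₗ[ℝ] ℝ) (x : X) {R : ℝ}
    (h : ∀ u ∈ Icc (0 : ℝ) L, ψ (G D (cu δ φ u) x) ≤ R) :
    ψ (F D δ L φ x) ≤ R := by
  rw [psi_F_int D hδ hL hφ]
  have h7 : ∫ u in (0 : ℝ)..L, ψ (G D (cu δ φ u) x) ≤ ∫ _u in (0 : ℝ)..L, R :=
    intervalIntegral.integral_mono_on hL.le
      (code_integrable hδ hφ (cu δ φ 0).powerset (fun A => ψ (G D A x)) hL.le
        fun v hv => Finset.mem_powerset.2 (cu_anti hδ hφ hv.1)) intervalIntegrable_const h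
  rw [intervalIntegral.integral_const, sub_zero, smul_eq_mul] at h7
  calc L⁻¹ * _ ≤ L⁻¹ * (L * R) := mul_le_mul_of_nonneg_left h7 (inv_nonneg.2 hL.le)
    _ = R := by rw [← mul_assoc, inv_mul_cancel₀ hL.ne', one_mul]

theorem p_F_le (hδ : 0 < δ) (hL : 0 < L) (hφ : IsC0 φ) (x : X) :
    p (F D δ L φ x) ≤ (1 + ε) * p x := by
  obtain ⟨ψ, h1, h2⟩ := exists_norming p (F D δ L φ x)
  rw [← h1]
  exact F_fun_le D hδ hL hφ ψ x fun u _ => (h2 _).trans (by rw [G_apply]; exact D.avg _ _)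

theorem F_close (hδ : 0 < δ) (hL : 0 < L) (hφ : IsC0 φ) (hδL : δ * Real.exp L < 1) {x : Y}
    (h : ∀ γ, |K.Φ x γ - φ γ| ≤ δ) :
    ‖F D δ L φ (T x) - T x‖ ≤ C3 E K T * (δ * Real.exp L) := by
  obtain ⟨ψ, h1, h2⟩ := exists_norming (normSeminorm ℝ X) (F D δ L φ (T x) - T x)
  have hm := m_pos D
  have hC3 := C3_pos E K T
  have h3 : ψ (F D δ L φ (T x)) ≤ C3 E K T * (δ * Real.exp L) + ψ (T x) := by
    refine F_fun_le D hδ hL hφ ψ (T x) fun u hu => ?_
    set A := cu δ φ u with hA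
    have hu1 : δ * Real.exp u ≤ δ * Real.exp L := by gcongr; exact hu.2
    have hu0 : δ ≤ δ * Real.exp u := by
      have := Real.one_le_exp hu.1
      nlinarith
    have hxA : x ∈ XA K A := mem_XA K hφ (by positivity) (by linarith) fun γ =>
      (h γ).trans hu0
    have htl : tlow A ≤ δ * Real.exp L := (tlow_le hφ (by positivity)).trans hu1
    have h4 : G D A (T x) - T x =
        (D.m : ℝ)⁻¹ • ∑ j ∈ Finset.range D.m, (E.P (D.S j A) (T x) - T x) := by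
      rw [G_apply, Finset.sum_sub_distrib, smul_sub, avg_const]
    have h5 : ‖G D A (T x) - T x‖ ≤ C3 E K T * (δ * Real.exp L) := by
      rw [h4, norm_smul, Real.norm_eq_abs, abs_of_pos (inv_pos.2 hm), inv_mul_le_iff₀ hm]
      calc ‖∑ j ∈ Finset.range D.m, (E.P (D.S j A) (T x) - T x)‖
          ≤ ∑ _j ∈ Finset.range D.m, C3 E K T * (δ * Real.exp L) := by
            refine norm_sum_le_of_le _ fun j _ => ?_
            rw [norm_sub_rev]
            refine (D.star A x hxA _ (D.mono_j A (Nat.zero_le j))).trans ?_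
            gcongr
        _ = D.m * (C3 E K T * (δ * Real.exp L)) := by
            rw [Finset.sum_const, Finset.card_range, nsmul_eq_mul]
    have h6 := h2 (G D A (T x) - T x)
    rw [map_sub] at h6
    have h7 : (normSeminorm ℝ X) (G D A (T x) - T x) = ‖G D A (T x) - T x‖ := rfl
    rw [h7] at h6
    linarith
  rw [map_sub] at h1
  have h8 : (normSeminorm ℝ X) (F D δ L φ (T x) - T x) = ‖F D δ L φ (T x) - T x‖ := rfl
  rw [h8] at h1
  linarith

end Pool.Agent.Helper8.DP
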