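import Mathlib

/-!
A locally constant retraction of a compact space with a rank function (row CKA, helper74).
-/

set_option autoImplicit false

namespace Pool.Agent.Helper8.DP

open Classical in
/-- The retraction on the set `V`. -/
structure CkGood {K : Type*} [TopologicalSpace K] (r : K → ℕ) (N : K → Set K) (V : Set K)
    (s : K → K) : Prop where
  maps : ∀ k ∈ V, s k ∈ V
  cont : ∀ T : Set K, IsOpen (V ∩ s ⁻¹' T)
  idem : ∀ k ∈ V, s (s k) = s k
  rank : ∀ k ∈ V, s k ≠ k → r k < r (s k)
  near : ∀ k ∈ V, k ∈ N (s k)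

open Classical in
theorem CkGood.glue {K : Type*} [TopologicalSpace K] {r : K → ℕ} {N : K → Set K} {V W : Set K}
    {s t : K → K} (hs : CkGood r N V s) (ht : CkGood r N W t) (hd : ∀ k ∈ W, k ∉ V) :
    CkGood r N (V ∪ W) (fun k => if k ∈ V then s k else t k) := by
  have e1 : ∀ k ∈ V, (if k ∈ V then s k else t k) = s k := fun k hk => if_pos hk
  have e2 : ∀ k ∈ W, (if k ∈ V then s k else t k) = t k := fun k hk => if_neg (hd k hk)
  refine ⟨?_, ?_, ?_, ?_, ?_⟩
  · rintro k (hk | hk)
    · simp only [e1 k hk]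
      exact Or.inl (hs.maps k hk)
    · simp only [e2 k hk]
      exact Or.inr (ht.maps k hk)
  · intro T
    have e : (V ∪ W) ∩ (fun k => if k ∈ V then s k else t k) ⁻¹' T =
        (V ∩ s ⁻¹' T) ∪ (W ∩ t ⁻¹' T) := by
      ext k
      constructor
      · rintro ⟨hk | hk, h⟩
        · left
          refine ⟨hk, ?_⟩
          change (if k ∈ V then s k else t k) ∈ T at h
          rw [e1 k hk] at h
          exact h
        · right
          refine ⟨hk, ?_⟩
          change (if k ∈ V then s k else t k) ∈ T at h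
          rw [e2 k hk] at h
          exact h
      · rintro (⟨hk, h⟩ | ⟨hk, h⟩)
        · refine ⟨Or.inl hk, ?_⟩
          change (if k ∈ V then s k else t k) ∈ T
          rw [e1 k hk]
          exact h
        · refine ⟨Or.inr hk, ?_⟩
          change (if k ∈ V then s k else t k) ∈ T
          rw [e2 k hk]
          exact h
    rw [e]
    exact (hs.cont T).union (ht.cont T)
  · rintro k (hk | hk)
    · simp only [e1 k hk, e1 _ (hs.maps k hk)]
      exact hs.idem k hk
    · simp only [e2 k hk, e2 _ (ht.maps k hk)]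
      exact ht.idem k hk
  · rintro k (hk | hk)
    · simp only [e1 k hk]
      exact hs.rank k hk
    · simp only [e2 k hk]
      exact ht.rank k hk
  · rintro k (hk | hk)
    · simp only [e1 k hk]
      exact hs.near k hk
    · simp only [e2 k hk]
      exact ht.near k hk

/-- The inner induction. -/
theorem ck_inner {K : Type*} [TopologicalSpace K] (r : K → ℕ) (N : K → Set K) (ρ : ℕ)
    (ih : ∀ V : Set K, IsClopen V → (∀ k ∈ V, r k < ρ) → ∃ s, CkGood r N V s)
    (U : K → Set K) (hU : ∀ k, IsClopen (U k)) (hUN : ∀ k, U k ⊆ N k)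
    (hUr : ∀ k, ∀ k' ∈ U k, k' ≠ k → r k' < r k) (F : Finset K) :
    (∀ k ∈ F, r k ≤ ρ) → ∀ W : Set K, IsClopen W → W ⊆ ⋃ k ∈ F, U k → ∃ s, CkGood r N W s := by
  classical
  induction F using Finset.induction_on with
  | empty =>
    intro _ W _ hWU
    have hW0 : W = ∅ := by
      rw [Set.eq_empty_iff_forall_notMem]
      intro k hk
      have := hWU hk
      simp at this
    subst hW0
    exact ⟨id, fun k hk => hk.elim, fun T => by rw [Set.empty_inter]; exact isOpen_empty,
      fun k hk => hk.elim, fun k hk => hk.elim, fun k hk => hk.elim⟩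
  | insert a F _ ihF =>
    intro hF W hW hWU
    have ha : r a ≤ ρ := hF a (Finset.mem_insert_self a F)
    have h2 : ∃ t, CkGood r N (W \ U a) t := by
      refine ihF (fun k hk => hF k (Finset.mem_insert_of_mem hk)) _ (hW.diff (hU a)) ?_
      rintro k ⟨hk, hka⟩
      have h := hWU hk
      rw [Set.mem_iUnion₂] at h ⊢
      obtain ⟨b, hb, hkb⟩ := h
      rcases Finset.mem_insert.1 hb with rfl | hb
      · exact (hka hkb).elim
      · exact ⟨b, hb, hkb⟩
    have h1 : ∃ s, CkGood r N (W ∩ U a) s := by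
      by_cases haW : a ∈ W ∩ U a
      · refine ⟨fun _ => a, fun k _ => haW, fun T => ?_, fun k _ => rfl, fun k hk hne => ?_,
          fun k hk => hUN a hk.2⟩
        · by_cases haT : a ∈ T
          · rw [Set.preimage_const_of_mem haT, Set.inter_univ]
            exact (hW.inter (hU a)).isOpen
          · rw [Set.preimage_const_of_notMem haT, Set.inter_empty]
            exact isOpen_empty
        · exact hUr a k hk.2 (fun h => hne h.symm)
      · refine ih _ (hW.inter (hU a)) (fun k hk => ?_)
        refine lt_of_lt_of_le (hUr a k hk.2 ?_) ha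
        rintro rfl
        exact haW hk
    obtain ⟨s, hs⟩ := h1
    obtain ⟨t, ht⟩ := h2
    have h := hs.glue ht (fun k hk hk' => hk.2 hk'.2)
    rw [Set.inter_union_diff] at h
    exact ⟨_, h⟩

/-- The outer induction. -/
theorem ck_outer {K : Type*} [TopologicalSpace K] [CompactSpace K] (r : K → ℕ) (N : K → Set K)
    (U : K → Set K) (hU : ∀ k, IsClopen (U k)) (hUk : ∀ k, k ∈ U k) (hUN : ∀ k, U k ⊆ N k)
    (hUr : ∀ k, ∀ k' ∈ U k, k' ≠ k → r k' < r k) (ρ : ℕ) :
    ∀ V : Set K, IsClopen V → (∀ k ∈ V, r k < ρ) → ∃ s, CkGood r N V s := by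
  induction ρ with
  | zero =>
    intro V _ h
    have hV0 : V = ∅ := by
      rw [Set.eq_empty_iff_forall_notMem]
      intro k hk
      exact absurd (h k hk) (Nat.not_lt_zero _)
    subst hV0
    exact ⟨id, fun k hk => hk.elim, fun T => by rw [Set.empty_inter]; exact isOpen_empty,
      fun k hk => hk.elim, fun k hk => hk.elim, fun k hk => hk.elim⟩
  | succ ρ ih =>
    intro V hV h
    obtain ⟨F, hFV, hF⟩ := hV.isClosed.isCompact.elim_nhds_subcover U
      (fun k _ => (hU k).isOpen.mem_nhds (hUk k))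
    exact ck_inner r N ρ ih U hU hUN hUr F (fun k hk => Nat.lt_succ_iff.1 (h k (hFV k hk))) V hV hF

/-- Row CKA. -/
theorem exists_retract {K : Type*} [TopologicalSpace K] [CompactSpace K] (r : K → ℕ) (n : ℕ)
    (hn : ∀ k, r k < n)
    (hr : ∀ k, ∀ U ∈ nhds k, ∃ V, IsClopen V ∧ k ∈ V ∧ V ⊆ U ∧ ∀ k' ∈ V, k' ≠ k → r k' < r k)
    (N : K → Set K) (hN : ∀ k, N k ∈ nhds k) :
    ∃ s : K → K, IsLocallyConstant s ∧ (∀ k, s (s k) = s k) ∧
      (∀ k, s k ≠ k → r k < r (s k)) ∧ ∀ k, k ∈ N (s k) := by
  choose U hU hUk hUN hUr using fun k => hr k (N k) (hN k)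
  obtain ⟨s, hs⟩ := ck_outer r N U hU hUk hUN hUr n Set.univ isClopen_univ (fun k _ => hn k)
  refine ⟨s, fun T => ?_, fun k => hs.idem k trivial, fun k => hs.rank k trivial,
    fun k => hs.near k trivial⟩
  have h := hs.cont T
  rwa [Set.univ_inter] at h

end Pool.Agent.Helper8.DP
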