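import Mathlib

set_option autoImplicit false

namespace Pool.Agent.Helper8.DP

open Topology Set

theorem ckb_closed {K : Type*} [TopologicalSpace K] [T1Space K] (i : ℕ) :
    IsClosed (derivedSet^[i] (Set.univ : Set K)) := by
  cases i with
  | zero => exact isClosed_univ
  | succ i =>
    rw [Function.iterate_succ_apply']
    exact isClosed_derivedSet _

theorem ckb_step {K : Type*} [TopologicalSpace K] [T1Space K] (i : ℕ) :
    derivedSet^[i + 1] (Set.univ : Set K) ⊆ derivedSet^[i] Set.univ := by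
  rw [Function.iterate_succ_apply']
  exact (isClosed_iff_derivedSet_subset _).1 (ckb_closed i)

theorem ckb_anti {K : Type*} [TopologicalSpace K] [T1Space K] {i j : ℕ} (h : i ≤ j) :
    derivedSet^[j] (Set.univ : Set K) ⊆ derivedSet^[i] Set.univ := by
  induction j, h using Nat.le_induction with
  | base => exact subset_rfl
  | succ j _ ih => exact (ckb_step j).trans ih

theorem ckb_td {K : Type*} [TopologicalSpace K] [T1Space K] (n : ℕ)
    (h : derivedSet^[n] (Set.univ : Set K) = ∅) : TotallyDisconnectedSpace K := by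
  refine ⟨fun t _ ht => ?_⟩
  by_contra hns
  have hnt : t.Nontrivial := Set.not_subsingleton_iff.1 hns
  have hp : t ⊆ derivedSet t :=
    preperfect_iff_subset_derivedSet.1 (ht.preperfect_of_nontrivial hnt)
  have hD : ∀ i, t ⊆ derivedSet^[i] (Set.univ : Set K) := by
    intro i
    induction i with
    | zero => exact Set.subset_univ _
    | succ i ih =>
      rw [Function.iterate_succ_apply']
      exact hp.trans (derivedSet_mono _ _ ih)
  obtain ⟨x, hx⟩ := hnt.nonempty
  have h1 := hD n hx
  rw [h] at h1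
  exact h1

/-- compact Hausdorff spaces of finite height: a rank with a clopen basis of good neighbourhoods -/
theorem exists_rank {K : Type*} [TopologicalSpace K] [CompactSpace K] [T2Space K] (n : ℕ)
    (h : derivedSet^[n] (Set.univ : Set K) = ∅) :
    ∃ r : K → ℕ, (∀ k, r k < n) ∧ ∀ k, ∀ U ∈ 𝓝 k, ∃ V, IsClopen V ∧ k ∈ V ∧ V ⊆ U ∧
      ∀ k' ∈ V, k' ≠ k → r k' < r k := by
  classical
  have := ckb_td n h
  have hr : ∀ k : K, ∃ i, k ∈ derivedSet^[i] (Set.univ : Set K) ∧
      k ∉ derivedSet^[i + 1] (Set.univ : Set K) ∧ i < n := by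
    intro k
    have hex : ∃ i, k ∉ derivedSet^[i] (Set.univ : Set K) := ⟨n, by rw [h]; exact id⟩
    have h1 := Nat.find_spec hex
    have h0 : Nat.find hex ≠ 0 := by
      intro h2
      rw [h2] at h1
      exact h1 (Set.mem_univ k)
    have h2 : Nat.find hex ≤ n := Nat.find_min' hex (by rw [h]; exact id)
    refine ⟨Nat.find hex - 1, ?_, ?_, by omega⟩
    · by_contra h3
      exact Nat.find_min hex (by omega) h3
    · rw [Nat.sub_add_cancel (by omega)]
      exact h1
  choose r hr1 hr2 hr3 using hr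
  refine ⟨r, hr3, ?_⟩
  intro k U hU
  have h1 : ¬ AccPt k (Filter.principal (derivedSet^[r k] (Set.univ : Set K))) := by
    have h2 := hr2 k
    rw [Function.iterate_succ_apply'] at h2
    exact h2
  rw [accPt_iff_nhds] at h1
  push Not at h1
  obtain ⟨U0, hU0, hU0'⟩ := h1
  obtain ⟨W, hW1, hW2, hW3⟩ := mem_nhds_iff.1 (Filter.inter_mem hU hU0)
  obtain ⟨V, hV1, hV2, hV3⟩ := compact_exists_isClopen_in_isOpen hW2 hW3
  refine ⟨V, hV1, hV2, fun z hz => (hW1 (hV3 hz)).1, ?_⟩
  intro k' hk' hne
  by_contra hle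
  have h3 : k' ∈ derivedSet^[r k] (Set.univ : Set K) := ckb_anti (not_lt.1 hle) (hr1 k')
  exact hne (hU0' k' ⟨(hW1 (hV3 hk')).2, h3⟩)

end Pool.Agent.Helper8.DP
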