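import Pool.Agent.Helper8.DP.Defs
import Pool.Agent.Helper8.DP.CKA
import Pool.Agent.Helper8.DP.CKB

/-! The directed system of projections of `C(K)`, where `K` has finite height. -/

open Set Filter Topology

namespace Pool.Agent.Helper8.DP

set_option linter.unusedSectionVars false
set_option linter.style.haveILetI false

variable {K : Type*} [TopologicalSpace K] {r : K → ℕ}

/-- Locally constant retractions which send each point to a point of larger rank. -/
structure Ret (r : K → ℕ) where
  s : K → K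
  lc : IsLocallyConstant s
  idem : ∀ k, s (s k) = s k
  rk : ∀ k, s k ≠ k → r k < r (s k)

namespace Ret

instance : Preorder (Ret r) where
  le σ τ := ∀ k, σ.s (τ.s k) = σ.s k
  le_refl σ := σ.idem
  le_trans ρ σ τ h1 h2 k := by rw [← h1 (τ.s k), h2, h1]

theorem le_def {σ τ : Ret r} : σ ≤ τ ↔ ∀ k, σ.s (τ.s k) = σ.s k := Iff.rfl

theorem eq_of_le {σ τ : Ret r} (h : σ ≤ τ) (k : K) : τ.s (σ.s k) = σ.s k := by
  by_contra hne
  have h1 := τ.rk _ hne
  have h2 : σ.s (τ.s (σ.s k)) = σ.s k := by rw [le_def.1 h, σ.idem]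
  have h3 : σ.s (τ.s (σ.s k)) ≠ τ.s (σ.s k) := by
    rw [h2]; exact fun he => hne he.symm
  have h4 := σ.rk _ h3
  rw [h2] at h4
  omega

theorem rank_lt {σ τ : Ret r} (h : σ ≤ τ) {k : K} (hne : σ.s k ≠ τ.s k) :
    r (τ.s k) < r (σ.s k) := by
  rw [← le_def.1 h k]
  refine σ.rk _ ?_
  rw [le_def.1 h]
  exact hne

theorem rank_le {σ τ : Ret r} (h : σ ≤ τ) (k : K) : r (τ.s k) ≤ r (σ.s k) := by
  by_cases he : σ.s k = τ.s k
  · rw [he]
  · exact (rank_lt h he).le

/-- Non-overlapping families change a given point only a bounded number of times. -/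
theorem card_le {n : ℕ} (hn : ∀ k, r k < n) {s : Finset ℕ} {a b : ℕ → Ret r}
    (h : NonOv s a b) (k : K) [DecidableEq K] :
    (s.filter fun l => (a l).s k ≠ (b l).s k).card ≤ n := by
  have hinj : Set.InjOn (fun l => r ((a l).s k))
      (s.filter fun l => (a l).s k ≠ (b l).s k : Finset ℕ) := by
    intro l hl l' hl' he
    have hl1 := Finset.mem_filter.1 (Finset.mem_coe.1 hl)
    have hl2 := Finset.mem_filter.1 (Finset.mem_coe.1 hl')
    by_contra hne
    have he' : r ((a l).s k) = r ((a l').s k) := he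
    have g1 := rank_lt (h.1 l hl1.1) hl1.2
    have g2 := rank_lt (h.1 l' hl2.1) hl2.2
    rcases h.2 l hl1.1 l' hl2.1 hne with h3 | h3
    · have := rank_le h3 k
      omega
    · have := rank_le h3 k
      omega
  have := Finset.card_le_card_of_injOn (s := s.filter fun l => (a l).s k ≠ (b l).s k)
    (t := Finset.range n) (fun l => r ((a l).s k)) (fun l _ => by
      simpa using hn ((a l).s k)) hinj
  simpa using this

variable [CompactSpace K]

/-- The projection attached to a retraction. -/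
noncomputable def P (σ : Ret r) : C(K, ℝ) →L[ℝ] C(K, ℝ) :=
  LinearMap.mkContinuous
    { toFun := fun x => x.comp ⟨σ.s, σ.lc.continuous⟩
      map_add' := fun _ _ => rfl
      map_smul' := fun _ _ => rfl } 1 fun x => by
    rw [one_mul]
    exact (ContinuousMap.norm_le _ (norm_nonneg x)).2 fun _ => x.norm_coe_le_norm _

theorem P_apply (σ : Ret r) (x : C(K, ℝ)) (k : K) : P σ x k = x (σ.s k) := rfl

theorem norm_P_le (σ : Ret r) (x : C(K, ℝ)) : ‖P σ x‖ ≤ ‖x‖ :=
  (ContinuousMap.norm_le _ (norm_nonneg x)).2 fun k => x.norm_coe_le_norm _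

theorem finrange (σ : Ret r) :
    FiniteDimensional ℝ (LinearMap.range (P σ : C(K, ℝ) →ₗ[ℝ] C(K, ℝ))) := by
  classical
  have hfin : (Set.range σ.s).Finite := σ.lc.range_finite
  let e : K → C(K, ℝ) := fun c =>
    ⟨fun k => if σ.s k = c then 1 else 0, (σ.lc.comp fun d => if d = c then (1 : ℝ) else 0).continuous⟩
  have hle : LinearMap.range (P σ : C(K, ℝ) →ₗ[ℝ] C(K, ℝ)) ≤
      Submodule.span ℝ (e '' Set.range σ.s) := by
    rintro _ ⟨x, rfl⟩
    have h1 : (P σ : C(K, ℝ) →ₗ[ℝ] C(K, ℝ)) x = ∑ c ∈ hfin.toFinset, x c • e c := by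
      ext k
      change x (σ.s k) = _
      rw [ContinuousMap.sum_apply]
      have h2 : ∀ c ∈ hfin.toFinset, (x c • e c) k = if σ.s k = c then x c else 0 := by
        intro c _
        change x c • (if σ.s k = c then (1 : ℝ) else 0) = _
        split_ifs <;> simp
      rw [Finset.sum_congr rfl h2, Finset.sum_ite_eq, if_pos]
      exact hfin.mem_toFinset.2 ⟨k, rfl⟩
    rw [h1]
    exact Submodule.sum_mem _ fun c hc => Submodule.smul_mem _ _
      (Submodule.subset_span ⟨c, hfin.mem_toFinset.1 hc, rfl⟩)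
  haveI : FiniteDimensional ℝ (Submodule.span ℝ (e '' Set.range σ.s)) :=
    FiniteDimensional.span_of_finite ℝ (hfin.image e)
  exact Submodule.finiteDimensional_of_le hle

variable {n : ℕ} (hn : ∀ k, r k < n)
  (hr : ∀ k, ∀ U ∈ 𝓝 k, ∃ V, IsClopen V ∧ k ∈ V ∧ V ⊆ U ∧ ∀ k' ∈ V, k' ≠ k → r k' < r k)

include hn hr

theorem exists_ret (N : K → Set K) (hN : ∀ k, N k ∈ 𝓝 k) : ∃ σ : Ret r, ∀ k, k ∈ N (σ.s k) := by
  obtain ⟨s, h1, h2, h3, h4⟩ := exists_retract r n hn hr N hN
  exact ⟨⟨s, h1, h2, h3⟩, h4⟩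

theorem nonempty : Nonempty (Ret r) := by
  obtain ⟨σ, _⟩ := exists_ret hn hr (fun _ => Set.univ) fun _ => univ_mem
  exact ⟨σ⟩

theorem directed : IsDirectedOrder (Ret r) := by
  refine ⟨fun σ₁ σ₂ => ?_⟩
  obtain ⟨σ, hσ⟩ := exists_ret hn hr
    (fun k => {k' | σ₁.s k' = σ₁.s k ∧ σ₂.s k' = σ₂.s k})
    fun k => (σ₁.lc.eventually_eq k).and (σ₂.lc.eventually_eq k)
  exact ⟨σ, fun k => ((hσ k).1).symm, fun k => ((hσ k).2).symm⟩

/-- The system of projections of `C(K)`. -/
noncomputable def sys : DPS C(K, ℝ) (Ret r) where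
  P := P
  PP := fun σ τ h x => by
    ext k
    rw [P_apply, P_apply, P_apply, eq_of_le h]
  PP' := fun σ τ h x => by
    ext k
    rw [P_apply, P_apply, P_apply, le_def.1 h]
  fin := finrange
  C := 2 * n + 1
  C1 := by linarith [Nat.cast_nonneg (α := ℝ) n]
  bdd := fun σ x => by
    have h1 := norm_P_le σ x
    have h2 : (0 : ℝ) ≤ n := Nat.cast_nonneg n
    have h3 := norm_nonneg x
    nlinarith
  unc := fun s a b h x => by
    classical
    have h2 : (0 : ℝ) ≤ n := Nat.cast_nonneg n
    have h3 := norm_nonneg x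
    refine (ContinuousMap.norm_le _ (by positivity)).2 fun k => ?_
    rw [ContinuousMap.sum_apply, ← Finset.sum_filter_add_sum_filter_not s
      (fun l => (a l).s k ≠ (b l).s k)]
    have e0 : ∑ l ∈ s.filter (fun l => ¬ (a l).s k ≠ (b l).s k),
        (P (b l) x - P (a l) x) k = 0 := by
      refine Finset.sum_eq_zero fun l hl => ?_
      have := not_not.1 (Finset.mem_filter.1 hl).2
      rw [ContinuousMap.sub_apply, P_apply, P_apply, this, sub_self]
    rw [e0, add_zero]
    have e1 := card_le hn h k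
    calc ‖∑ l ∈ s.filter (fun l => (a l).s k ≠ (b l).s k), (P (b l) x - P (a l) x) k‖
        ≤ ∑ _l ∈ s.filter (fun l => (a l).s k ≠ (b l).s k), (‖x‖ + ‖x‖) := by
          refine norm_sum_le_of_le _ fun l _ => ?_
          rw [ContinuousMap.sub_apply]
          exact (norm_sub_le _ _).trans (add_le_add (x.norm_coe_le_norm _) (x.norm_coe_le_norm _))
      _ = (s.filter (fun l => (a l).s k ≠ (b l).s k)).card * (‖x‖ + ‖x‖) := by
          rw [Finset.sum_const, nsmul_eq_mul]
      _ ≤ n * (‖x‖ + ‖x‖) := by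
          gcongr
      _ ≤ (2 * n + 1) * ‖x‖ := by linarith
  dens := fun x ε hε => by
    obtain ⟨σ, hσ⟩ := exists_ret hn hr (fun k => {k' | |x k' - x k| < ε}) fun k => by
      have := (x.continuous.tendsto k).eventually (Metric.ball_mem_nhds (x k) hε)
      filter_upwards [this] with k' hk'
      rw [Real.dist_eq] at hk'
      exact hk'
    refine ⟨σ, (ContinuousMap.norm_le _ hε.le).2 fun k => ?_⟩
    rw [ContinuousMap.sub_apply, P_apply, Real.norm_eq_abs]
    exact (hσ k).le
  avg := fun η hη => by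
    classical
    obtain ⟨m, hm⟩ := exists_nat_gt ((n : ℝ) / η)
    have hm0 : (0 : ℝ) < m := lt_of_le_of_lt (by positivity) hm
    refine ⟨m, by exact_mod_cast hm0, fun v a b h h1 h2 h3 => ?_⟩
    refine (ContinuousMap.norm_le _ (by positivity)).2 fun k => ?_
    rw [ContinuousMap.sum_apply, ← Finset.sum_filter_add_sum_filter_not (Finset.range m)
      (fun l => (a l).s k ≠ (b l).s k)]
    have e0 : ∑ l ∈ (Finset.range m).filter (fun l => ¬ (a l).s k ≠ (b l).s k), v l k = 0 := by
      refine Finset.sum_eq_zero fun l hl => ?_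
      have hl1 := Finset.mem_filter.1 hl
      have he := not_not.1 hl1.2
      have hlm := Finset.mem_range.1 hl1.1
      have g1 : v l k = v l ((b l).s k) := by
        have := DFunLike.congr_fun (h2 l hlm) k
        rw [P_apply] at this
        exact this.symm
      have g2 : v l ((a l).s k) = 0 := by
        have := DFunLike.congr_fun (h3 l hlm) k
        rw [P_apply] at this
        exact this
      rw [g1, ← he, g2]
    rw [e0, add_zero]
    have e1 := card_le hn h k
    calc ‖∑ l ∈ (Finset.range m).filter (fun l => (a l).s k ≠ (b l).s k), v l k‖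
        ≤ ∑ _l ∈ (Finset.range m).filter (fun l => (a l).s k ≠ (b l).s k), (1 : ℝ) := by
          refine norm_sum_le_of_le _ fun l hl => ?_
          exact ((v l).norm_coe_le_norm _).trans
            (h1 l (Finset.mem_range.1 (Finset.mem_filter.1 hl).1))
      _ = ((Finset.range m).filter (fun l => (a l).s k ≠ (b l).s k)).card := by
          rw [Finset.sum_const, nsmul_eq_mul, mul_one]
      _ ≤ n := by exact_mod_cast e1
      _ ≤ η * m := by
          rw [div_lt_iff₀ hη] at hm
          linarith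

end Ret

end Pool.Agent.Helper8.DP
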