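import Pool.Agent.Helper94.UF.Moll

/-! Directed systems of finite-rank projections with small averages along chains. -/

open Set Filter Topology

namespace Pool.Agent.Helper8.DP

set_option linter.unusedSectionVars false
set_option linter.style.haveILetI false

/-- The pairs `(a l, b l)`, `l ∈ s`, do not overlap. -/
def NonOv {ι : Type*} [Preorder ι] (s : Finset ℕ) (a b : ℕ → ι) : Prop :=
  (∀ l ∈ s, a l ≤ b l) ∧ ∀ l ∈ s, ∀ l' ∈ s, l ≠ l' → b l ≤ a l' ∨ b l' ≤ a l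

theorem NonOv.mono {ι : Type*} [Preorder ι] {s t : Finset ℕ} {a b : ℕ → ι} (h : NonOv s a b)
    (hts : t ⊆ s) : NonOv t a b :=
  ⟨fun l hl => h.1 l (hts hl), fun l hl l' hl' hne => h.2 l (hts hl) l' (hts hl') hne⟩

/-- A directed system of finite-rank projections. -/
structure DPS (X : Type*) [NormedAddCommGroup X] [NormedSpace ℝ X] (ι : Type*) [Preorder ι] where
  P : ι → X →L[ℝ] X
  PP : ∀ s t, s ≤ t → ∀ x, P s (P t x) = P s x
  PP' : ∀ s t, s ≤ t → ∀ x, P t (P s x) = P s x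
  fin : ∀ s, FiniteDimensional ℝ (LinearMap.range (P s : X →ₗ[ℝ] X))
  C : ℝ
  C1 : 1 ≤ C
  bdd : ∀ s x, ‖P s x‖ ≤ C * ‖x‖
  unc : ∀ (s : Finset ℕ) (a b : ℕ → ι), NonOv s a b → ∀ x,
    ‖∑ l ∈ s, (P (b l) x - P (a l) x)‖ ≤ C * ‖x‖
  dens : ∀ (x : X) (ε : ℝ), 0 < ε → ∃ s, ‖x - P s x‖ ≤ ε
  avg : ∀ η : ℝ, 0 < η → ∃ m : ℕ, 0 < m ∧ ∀ (v : ℕ → X) (a b : ℕ → ι),
    NonOv (Finset.range m) a b → (∀ j < m, ‖v j‖ ≤ 1) →
    (∀ j < m, P (b j) (v j) = v j) → (∀ j < m, P (a j) (v j) = 0) →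
    ‖∑ j ∈ Finset.range m, v j‖ ≤ η * m

variable {X : Type*} [NormedAddCommGroup X] [NormedSpace ℝ X] {ι : Type*} [Preorder ι]
variable (E : DPS X ι)

namespace DPS

theorem C0 : 0 < E.C := lt_of_lt_of_le one_pos E.C1

theorem norm_sub_P_le (B : ι) (x : X) : ‖x - E.P B x‖ ≤ (1 + E.C) * ‖x‖ := by
  calc ‖x - E.P B x‖ ≤ ‖x‖ + ‖E.P B x‖ := norm_sub_le _ _
    _ ≤ ‖x‖ + E.C * ‖x‖ := by gcongr; exact E.bdd B x
    _ = (1 + E.C) * ‖x‖ := by ring

theorem P_fix_mono {B B' : ι} (h : B ≤ B') {x : X} (hx : E.P B x = x) : E.P B' x = x := by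
  rw [← hx, E.PP' _ _ h]

theorem exists_tail (x : X) {ε : ℝ} (hε : 0 < ε) :
    ∃ B : ι, ∀ B' : ι, B ≤ B' → ‖x - E.P B' x‖ ≤ ε := by
  have hC := E.C0
  obtain ⟨B, hB⟩ := E.dens x (ε / (1 + E.C)) (by positivity)
  refine ⟨B, fun B' hBB => ?_⟩
  have h1 : x - E.P B' x = (x - E.P B x) - E.P B' (x - E.P B x) := by
    rw [map_sub, E.PP' _ _ hBB]; abel
  rw [h1]
  refine (E.norm_sub_P_le B' _).trans ?_
  calc (1 + E.C) * ‖x - E.P B x‖ ≤ (1 + E.C) * (ε / (1 + E.C)) := by gcongr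
    _ = ε := by field_simp

/-- Sums of successive vectors. -/
theorem exists_avg {η : ℝ} (hη : 0 < η) : ∃ m : ℕ, 0 < m ∧ ∀ (R : ℝ) (v : ℕ → X)
    (a b : ℕ → ι), 0 ≤ R → NonOv (Finset.range m) a b → (∀ j < m, ‖v j‖ ≤ R) →
    (∀ j < m, E.P (b j) (v j) = v j) → (∀ j < m, E.P (a j) (v j) = 0) →
    ‖∑ j ∈ Finset.range m, v j‖ ≤ η * m * R := by
  obtain ⟨m, hm, h⟩ := E.avg η hη
  refine ⟨m, hm, fun R v a b hR hd hv hs hs0 => ?_⟩
  rcases hR.eq_or_lt with h0 | h0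
  · have : ∑ j ∈ Finset.range m, v j = 0 := by
      refine Finset.sum_eq_zero fun j hj => ?_
      have h1 := hv j (Finset.mem_range.1 hj)
      rw [← h0] at h1
      exact norm_le_zero_iff.1 h1
    rw [this, norm_zero, ← h0, mul_zero]
  · have h1 := h (fun j => R⁻¹ • v j) a b hd (fun j hj => by
      rw [norm_smul, Real.norm_eq_abs, abs_of_pos (inv_pos.2 h0), inv_mul_le_iff₀ h0, mul_one]
      exact hv j hj) (fun j hj => by
      rw [map_smul, hs j hj]) (fun j hj => by rw [map_smul, hs0 j hj, smul_zero])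
    rw [← Finset.smul_sum, norm_smul, Real.norm_eq_abs, abs_of_pos (inv_pos.2 h0),
      inv_mul_le_iff₀ h0] at h1
    linarith

/-- The image of a bounded set under a projection is totally bounded. -/
theorem totallyBounded_P (B : ι) {T : Set X} {R : ℝ} (hT : ∀ x ∈ T, ‖x‖ ≤ R) :
    TotallyBounded (E.P B '' T) := by
  set W := LinearMap.range (E.P B : X →ₗ[ℝ] X) with hW
  haveI : FiniteDimensional ℝ W := E.fin B
  haveI : ProperSpace W := FiniteDimensional.proper_real W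
  have h1 : IsCompact (Metric.closedBall (0 : W) (E.C * R)) := isCompact_closedBall _ _
  have h2 : IsCompact ((fun w : W => (w : X)) '' Metric.closedBall (0 : W) (E.C * R)) :=
    h1.image continuous_subtype_val
  refine h2.totallyBounded.subset ?_
  rintro _ ⟨x, hx, rfl⟩
  refine ⟨⟨E.P B x, ⟨x, rfl⟩⟩, ?_, rfl⟩
  rw [mem_closedBall_zero_iff]
  change ‖E.P B x‖ ≤ _
  have hC := E.C0
  exact (E.bdd B x).trans (by gcongr; exact hT x hx)

end DPS

end Pool.Agent.Helper8.DP
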