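import Pool.Agent.Helper8.DP.Final

/-! Statements for the membership of `C(Q)`, `Q` of finite height, in the class `𝓔_∞`. -/

open scoped ContDiff
open Set Filter Topology

namespace Pool.Agent.Helper8.DP

open Pool.Agent.Helper94.UF

/-- A rank function with good clopen neighbourhoods. -/
def GoodRank {Q : Type*} [TopologicalSpace Q] (r : Q → ℕ) (n : ℕ) : Prop :=
  (∀ k, r k < n) ∧ ∀ k, ∀ U ∈ 𝓝 k, ∃ V, IsClopen V ∧ k ∈ V ∧ V ⊆ U ∧
    ∀ k' ∈ V, k' ≠ k → r k' < r k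

/-- The points of positive rank. -/
abbrev Pos {Q : Type*} (r : Q → ℕ) : Type _ := {k : Q // 1 ≤ r k}

theorem isOpen_lt {Q : Type*} [TopologicalSpace Q] {r : Q → ℕ} {n : ℕ} (h : GoodRank r n)
    (j : ℕ) : IsOpen {k | r k < j} := by
  rw [isOpen_iff_mem_nhds]
  intro k hk
  obtain ⟨V, hV, hkV, _, hr⟩ := h.2 k Set.univ univ_mem
  filter_upwards [hV.isOpen.mem_nhds hkV] with k' hk'
  by_cases he : k' = k
  · rw [he]; exact hk
  · exact (hr k' hk' he).trans hk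

theorem isClosed_ge {Q : Type*} [TopologicalSpace Q] {r : Q → ℕ} {n : ℕ} (h : GoodRank r n)
    (j : ℕ) : IsClosed {k | j ≤ r k} := by
  have := (isOpen_lt h j).isClosed_compl
  convert this using 1
  ext k
  simp

/-- Restriction to the points of positive rank. -/
noncomputable def restr {Q : Type*} [TopologicalSpace Q] [CompactSpace Q] (r : Q → ℕ)
    [CompactSpace (Pos r)] : C(Q, ℝ) →L[ℝ] C(Pos r, ℝ) :=
  LinearMap.mkContinuous
    { toFun := fun x => x.comp ⟨Subtype.val, continuous_subtype_val⟩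
      map_add' := fun _ _ => rfl
      map_smul' := fun _ _ => rfl } 1 fun x => by
    rw [one_mul]
    exact (ContinuousMap.norm_le _ (norm_nonneg x)).2 fun _ => x.norm_coe_le_norm _

theorem restr_apply {Q : Type*} [TopologicalSpace Q] [CompactSpace Q] (r : Q → ℕ)
    [CompactSpace (Pos r)] (x : C(Q, ℝ)) (k : Pos r) : restr r x k = x k := rfl

/-- Row EXT: a Lipschitz extension operator. Proof: `U γ` a good clopen neighbourhood of `γ`.
Downwards in `j`, a continuous `A j` on `Q`, equal to `y` on `{r ≥ j}` and Lipschitz in `y`: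
`A n = 0`, and `A j = A (j+1) + B j (y - A (j+1))⁺ - B j (y - A (j+1))⁻` with
`B j g k = sup {g γ | r γ = j, k ∈ U γ}` (`0` if there is no such `γ`). The set
`{γ | r γ = j, |y - A (j+1)| γ ≥ t}` is finite, because `y - A (j+1)` is continuous on the compact
set `{r ≥ j}` and vanishes on `{r > j}`, so `B j g` is a uniform limit of finite suprema of
functions which are constant on the clopen `U γ`. -/
def ST_EXT.{u} : Prop := ∀ (Q : Type u) [TopologicalSpace Q] [CompactSpace Q] [T2Space Q]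
  (r : Q → ℕ) (n : ℕ), GoodRank r n → ∀ [CompactSpace (Pos r)],
  ∃ (ext : C(Pos r, ℝ) → C(Q, ℝ)) (Λ : ℝ), 0 < Λ ∧
    (∀ y y', ‖ext y - ext y'‖ ≤ Λ * ‖y - y'‖) ∧ ∀ y (k : Pos r), ext y k = y k

/-- Smooth approximation on `C(Q)` without increasing the Lipschitz constant. -/
def App (X : Type*) [NormedAddCommGroup X] [NormedSpace ℝ X] : Prop :=
  ∀ (f : X → ℝ) (L : ℝ), 0 ≤ L → (∀ y y', |f y - f y'| ≤ L * ‖y - y'‖) → ∀ ε : ℝ, 0 < ε →
    ∃ s : X → ℝ, ContDiff ℝ ∞ s ∧ (∀ y y', |s y - s y'| ≤ L * ‖y - y'‖) ∧ ∀ y, |f y - s y| < ε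

/-- Row APP: `conclusion` with `Ret.sys` and `T = id` (`k = ⊤`). -/
def ST_APP.{u, v} : Prop := ∀ (Q : Type u) [TopologicalSpace Q] [CompactSpace Q] [T2Space Q]
  (r : Q → ℕ) (n : ℕ), GoodRank r n → ∀ (Γ : Type v), EK ∞ C(Q, ℝ) Γ → App C(Q, ℝ)

/-- Row STEP (helper8): the coordinates `T_{2^{-i}} (x k - s_{k,i} (x|Pos r))`, `i : ℤ`. -/
def ST_STEP.{u, v} : Prop := ∀ (Q : Type u) [TopologicalSpace Q] [CompactSpace Q] [T2Space Q]
  (r : Q → ℕ) (n : ℕ), GoodRank r n → ∀ [CompactSpace (Pos r)] (Γ : Type v),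
  EK ∞ C(Pos r, ℝ) Γ → App C(Pos r, ℝ) →
    Nonempty (EK ∞ C(Q, ℝ) (Γ ⊕ ({k : Q // r k = 0} × ℤ)))

/-- Row IND: by induction on `n`, from `ST_APP` and `ST_STEP`: the space `Pos r` is compact
(`isClosed_ge`), with the rank `r - 1 < n - 1`, which is good; for `n = 0` the space `Q` is empty
(`Γ = PEmpty`). -/
def ST_IND.{u} : Prop := ∀ (n : ℕ) (Q : Type u) [TopologicalSpace Q] [CompactSpace Q] [T2Space Q]
  (r : Q → ℕ), GoodRank r n → ∃ Γ : Type u, Nonempty (EK ∞ C(Q, ℝ) Γ)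

/-- Row GAD. Take `T s = s * β s` with
`β s = smoothTransition ((s^2-16)/48) * smoothTransition ((128^2-s^2)/(128^2-64^2))`. -/
def ST_GAD : Prop := ∃ (T : ℝ → ℝ) (LT : ℝ), ContDiff ℝ ∞ T ∧ 0 < LT ∧
  (∀ s s', |T s - T s'| ≤ LT * |s - s'|) ∧ (∀ s, |T s| ≤ |s|) ∧ (∀ s, |T s| ≤ 128) ∧
  (∀ s, |s| ≤ 4 → T s = 0) ∧ ∀ s, 8 ≤ |s| → |s| ≤ 64 → T s = s

end Pool.Agent.Helper8.DP
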