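import Pool.Agent.Helper8.DP.Embed
import Pool.Agent.Helper8.DP.CKC
import Pool.Agent.Helper94.UF.One
import Pool.Agent.Helper94.CZ.Basic

/-! The final form, with constant one. -/

open scoped ZeroAtInfty ContDiff NNReal
open Set Filter Topology

namespace Pool.Agent.Helper8.DP

open Pool.Agent.Helper94.UF

set_option linter.unusedSectionVars false

/-- A directed system from its essential properties. -/
theorem bdd_of {X : Type*} [NormedAddCommGroup X] [NormedSpace ℝ X] {ι : Type*} [Preorder ι]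
    (hdir : ∀ s t : ι, ∃ u, s ≤ u ∧ t ≤ u) (P : ι → X →L[ℝ] X)
    (hP : ∀ s t, s ≤ t → ∀ x, P s (P t x) = P s x) {C : ℝ}
    (hP' : ∀ s t, s ≤ t → ∀ x, P t (P s x) = P s x)
    (hC : ∀ s t, s ≤ t → ∀ x, ‖P t x - P s x‖ ≤ C * ‖x‖)
    (hdense : ∀ (x : X) (ε : ℝ), 0 < ε → ∃ s, ‖x - P s x‖ ≤ ε) (s : ι) (x : X) :
    ‖P s x‖ ≤ (1 + |C|) * ‖x‖ := by
  refine le_of_forall_pos_le_add fun ε hε => ?_
  have hC1 : 0 < 1 + |C| := by positivity
  obtain ⟨s₁, h1⟩ := hdense x (ε / (1 + |C|)) (by positivity)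
  obtain ⟨t, hst, hs1t⟩ := hdir s s₁
  set w : X := x - P s₁ x with hw
  have h2 : P s₁ w = 0 := by rw [hw, map_sub, hP _ _ le_rfl, sub_self]
  have h3 : x - P t x = w - (P t w - P s₁ w) := by
    rw [h2, sub_zero, hw, map_sub, hP' _ _ hs1t]; abel
  have habs : ∀ y : X, C * ‖y‖ ≤ |C| * ‖y‖ := fun y =>
    mul_le_mul_of_nonneg_right (le_abs_self C) (norm_nonneg y)
  have h4 : ‖x - P t x‖ ≤ ε := by
    rw [h3]
    calc ‖w - (P t w - P s₁ w)‖ ≤ ‖w‖ + ‖P t w - P s₁ w‖ := norm_sub_le _ _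
      _ ≤ ‖w‖ + |C| * ‖w‖ := by gcongr; exact (hC _ _ hs1t w).trans (habs w)
      _ = (1 + |C|) * ‖w‖ := by ring
      _ ≤ (1 + |C|) * (ε / (1 + |C|)) := by gcongr
      _ = ε := by field_simp
  have h5 : P s x = x - (x - P t x) - (P t x - P s x) := by abel
  rw [h5]
  calc ‖x - (x - P t x) - (P t x - P s x)‖ ≤ ‖x - (x - P t x)‖ + ‖P t x - P s x‖ :=
        norm_sub_le _ _
    _ ≤ (‖x‖ + ‖x - P t x‖) + ‖P t x - P s x‖ := by gcongr; exact norm_sub_le _ _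
    _ ≤ (‖x‖ + ε) + |C| * ‖x‖ := by
        gcongr
        exact (hC _ _ hst x).trans (habs x)
    _ = (1 + |C|) * ‖x‖ + ε := by ring

/-- The embedding data from a map into `c_0(Γ)`. -/
noncomputable def ekOf {Y Γ : Type*} [NormedAddCommGroup Y] [NormedSpace ℝ Y]
    [TopologicalSpace Γ] [DiscreteTopology Γ] (k : WithTop ℕ∞) (Φ : Y → C₀(Γ, ℝ))
    (hΦ : ∀ γ, ContDiff ℝ k fun y => Φ y γ) (c L₀ : ℝ) (hc : 0 < c)
    (hlow : ∀ x y, c * ‖x - y‖ ≤ ‖Φ x - Φ y‖) (hup : ∀ x y, ‖Φ x - Φ y‖ ≤ L₀ * ‖x - y‖) :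
    EK k Y Γ where
  Φ := fun x γ => Φ x γ
  isC0 := fun x _ ht => Pool.Agent.Helper94.CZ.finite_lt (Φ x) ht
  smooth := hΦ
  L := max 1 L₀
  L0 := lt_of_lt_of_le one_pos (le_max_left _ _)
  upper := fun x y γ => by
    have h1 := Pool.Agent.Helper94.CZ.abs_le_norm (Φ x - Φ y) γ
    rw [ZeroAtInftyContinuousMap.sub_apply] at h1
    exact h1.trans ((hup x y).trans
      (mul_le_mul_of_nonneg_right (le_max_right _ _) (norm_nonneg _)))
  c := c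
  c0 := hc
  lower := fun x y r hr h => (hlow x y).trans
    (Pool.Agent.Helper94.CZ.norm_le_of _ hr fun γ => by
      rw [ZeroAtInftyContinuousMap.sub_apply]; exact h γ)

/-- The conclusion, for a space with a directed system. -/
theorem conclusion {X Y Γ ι : Type*} [NormedAddCommGroup X] [NormedSpace ℝ X]
    [NormedAddCommGroup Y] [NormedSpace ℝ Y] [Preorder ι] [IsDirectedOrder ι] [Nonempty ι]
    (k : ℕ∞) (hk : 1 ≤ k) (E : DPS X ι) (K : EK (k : WithTop ℕ∞) Y Γ)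
    (T : Y →L[ℝ] X) (c' : ℝ) (hc' : 0 < c') (hT : ∀ y, c' * ‖y‖ ≤ ‖T y‖)
    (f : Y → ℝ) (L : ℝ≥0) (hf : LipschitzWith L f) (ε : ℝ) (hε : 0 < ε) :
    ∃ K : Y → ℝ, ContDiff ℝ k K ∧ LipschitzWith L K ∧ ∀ y, |f y - K y| < ε := by
  have hf' : ∀ x y, |f x - f y| ≤ (L : ℝ) * ‖x - y‖ := fun x y => by
    have := hf.dist_le_mul x y
    rwa [Real.dist_eq, dist_eq_norm] at this
  have hk' : (k : WithTop ℕ∞) ≤ ∞ := by exact_mod_cast le_top
  have hk1 : (1 : WithTop ℕ∞) ≤ (k : WithTop ℕ∞) := by exact_mod_cast hk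
  obtain ⟨h, h1, h2, h3⟩ := star_one_of_star hk' hk1
    (fun C₀ hC₀ g Λ hΛ hg ϵ hϵ => DP.star_of_embedding E K hk' T hc' hT hC₀ hΛ hg hϵ)
    L.2 hf' hε
  refine ⟨h, h1, LipschitzWith.of_dist_le_mul fun x y => ?_, h3⟩
  rw [Real.dist_eq, dist_eq_norm]
  exact h2 x y

end Pool.Agent.Helper8.DP
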