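import Pool.Agent.Helper8.DP.ESheet

/-! The two parts of the final theorem. -/

open scoped ZeroAtInfty ContDiff NNReal
open Set Filter Topology

namespace Pool.Agent.Helper8.DP

open Pool.Agent.Helper94.UF

set_option linter.unusedSectionVars false

/-- The embedding data of a subspace. -/
noncomputable def ekComp {k : WithTop ℕ∞} {X Y Γ : Type*} [NormedAddCommGroup X] [NormedSpace ℝ X]
    [NormedAddCommGroup Y] [NormedSpace ℝ Y] (K : EK k X Γ) (T : Y →L[ℝ] X) {c' : ℝ}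
    (hc' : 0 < c') (hT : ∀ y, c' * ‖y‖ ≤ ‖T y‖) : EK k Y Γ where
  Φ := fun y γ => K.Φ (T y) γ
  isC0 := fun y => K.isC0 (T y)
  smooth := fun γ => (K.smooth γ).comp T.contDiff
  L := K.L * (‖T‖ + 1)
  L0 := by have := K.L0; positivity
  upper := fun x y γ => by
    have hL := K.L0
    refine (K.upper _ _ _).trans ?_
    rw [mul_assoc, ← map_sub]
    gcongr
    refine (T.le_opNorm _).trans ?_
    gcongr
    linarith
  c := K.c * c'
  c0 := mul_pos K.c0 hc'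
  lower := fun x y r hr h => by
    have hc := K.c0
    refine le_trans ?_ (K.lower (T x) (T y) r hr h)
    rw [mul_assoc, ← map_sub]
    gcongr
    exact hT _

/-- Adding a zero coordinate. -/
def ekOpt {k : WithTop ℕ∞} {Y Γ : Type*} [NormedAddCommGroup Y] [NormedSpace ℝ Y]
    (K : EK k Y Γ) : EK k Y (Option Γ) where
  Φ := fun y a => a.elim 0 (K.Φ y)
  isC0 := fun y t ht => ((K.isC0 y t ht).image some).subset (by
    rintro (_ | γ) hγ
    · have h1 : t < |(0 : ℝ)| := hγ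
      rw [abs_zero] at h1
      linarith
    · exact ⟨γ, hγ, rfl⟩)
  smooth := by
    rintro (_ | γ)
    · exact contDiff_const
    · exact K.smooth γ
  L := K.L
  L0 := K.L0
  upper := by
    rintro x y (_ | γ)
    · have hL := K.L0
      change |(0 : ℝ) - 0| ≤ _
      rw [sub_zero, abs_zero]
      positivity
    · exact K.upper x y γ
  c := K.c
  c0 := K.c0
  lower := fun x y r hr h => K.lower x y r hr fun γ => h (some γ)

/-- From embedding data to a map into `c_0(Γ)`. -/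
theorem toC0 {k : WithTop ℕ∞} {Y Γ : Type*} [NormedAddCommGroup Y] [NormedSpace ℝ Y]
    [TopologicalSpace Γ] [DiscreteTopology Γ] (K : EK k Y Γ) :
    ∃ Φ : Y → C₀(Γ, ℝ), (∀ γ, ContDiff ℝ k fun y => Φ y γ) ∧
      (∀ x y, K.c * ‖x - y‖ ≤ ‖Φ x - Φ y‖) ∧ ∀ x y, ‖Φ x - Φ y‖ ≤ K.L * ‖x - y‖ := by
  let Φ : Y → C₀(Γ, ℝ) := fun y =>
    { toFun := K.Φ y
      continuous_toFun := continuous_of_discreteTopology
      zero_at_infty' := by
        rw [Metric.tendsto_nhds]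
        intro ε hε
        have h1 := K.isC0 y (ε / 2) (by positivity)
        rw [cocompact_eq_cofinite]
        refine h1.subset fun γ hγ => ?_
        have h2 : ¬ dist (K.Φ y γ) 0 < ε := hγ
        rw [Real.dist_eq, sub_zero] at h2
        change ε / 2 < |K.Φ y γ|
        linarith [not_lt.1 h2] }
  have hΦ : ∀ y γ, Φ y γ = K.Φ y γ := fun _ _ => rfl
  refine ⟨Φ, K.smooth, fun x y => K.lower x y _ (norm_nonneg _) fun γ => ?_, fun x y => ?_⟩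
  · have := Pool.Agent.Helper94.CZ.abs_le_norm (Φ x - Φ y) γ
    rwa [ZeroAtInftyContinuousMap.sub_apply, hΦ, hΦ] at this
  · have hL := K.L0
    refine Pool.Agent.Helper94.CZ.norm_le_of _ (by positivity) fun γ => ?_
    rw [ZeroAtInftyContinuousMap.sub_apply, hΦ, hΦ]
    exact K.upper x y γ

/-- The general theorem. -/
theorem general {X Y Γ ι : Type*} [NormedAddCommGroup X] [NormedSpace ℝ X]
    [NormedAddCommGroup Y] [NormedSpace ℝ Y] [TopologicalSpace Γ] [DiscreteTopology Γ]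
    [Preorder ι] (k : ℕ∞) (hk : 1 ≤ k)
    (Φ : Y → C₀(Γ, ℝ)) (hΦ : ∀ γ, ContDiff ℝ k fun y => Φ y γ) (c L₀ : ℝ) (hc : 0 < c)
    (hlow : ∀ x y, c * ‖x - y‖ ≤ ‖Φ x - Φ y‖) (hup : ∀ x y, ‖Φ x - Φ y‖ ≤ L₀ * ‖x - y‖)
    (hdir : ∀ s t : ι, ∃ u, s ≤ u ∧ t ≤ u) (P : ι → X →L[ℝ] X)
    (hP : ∀ s t, s ≤ t → ∀ x, P s (P t x) = P s x)
    (hP' : ∀ s t, s ≤ t → ∀ x, P t (P s x) = P s x)
    (hfin : ∀ s, FiniteDimensional ℝ (LinearMap.range (P s : X →ₗ[ℝ] X)))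
    (hdense : ∀ (x : X) (δ : ℝ), 0 < δ → ∃ s, ‖x - P s x‖ ≤ δ)
    (C : ℝ) (hunc : ∀ (F : Finset ℕ) (a b : ℕ → ι), (∀ l ∈ F, a l ≤ b l) →
      (∀ l ∈ F, ∀ l' ∈ F, l ≠ l' → b l ≤ a l' ∨ b l' ≤ a l) →
      ∀ x, ‖∑ l ∈ F, (P (b l) x - P (a l) x)‖ ≤ C * ‖x‖)
    (havg : ∀ η : ℝ, 0 < η → ∃ m : ℕ, 0 < m ∧ ∀ (v : ℕ → X) (a b : ℕ → ι),
      (∀ l < m, a l ≤ b l) → (∀ l < m, ∀ l' < m, l ≠ l' → b l ≤ a l' ∨ b l' ≤ a l) →
      (∀ j < m, ‖v j‖ ≤ 1) → (∀ j < m, P (b j) (v j) = v j) → (∀ j < m, P (a j) (v j) = 0) →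
      ‖∑ j ∈ Finset.range m, v j‖ ≤ η * m)
    (T : Y →L[ℝ] X) (c' : ℝ) (hc' : 0 < c') (hT : ∀ y, c' * ‖y‖ ≤ ‖T y‖)
    (f : Y → ℝ) (L : ℝ≥0) (hf : LipschitzWith L f) (ε : ℝ) (hε : 0 < ε) :
    ∃ K : Y → ℝ, ContDiff ℝ k K ∧ LipschitzWith L K ∧ ∀ y, |f y - K y| < ε := by
  have hne : Nonempty ι := by
    obtain ⟨s, _⟩ := hdense 0 1 one_pos
    exact ⟨s⟩
  have hdo : IsDirectedOrder ι := ⟨hdir⟩
  have habs : ∀ y : X, C * ‖y‖ ≤ (1 + |C|) * ‖y‖ := fun y =>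
    mul_le_mul_of_nonneg_right (by linarith [le_abs_self C]) (norm_nonneg y)
  let E : DPS X ι :=
    { P := P
      PP := hP
      PP' := hP'
      fin := hfin
      C := 1 + |C|
      C1 := by linarith [abs_nonneg C]
      bdd := bdd_of hdir P hP hP' (fun s t hst x => by
        have := hunc {0} (fun _ => s) (fun _ => t) (fun _ _ => hst)
          (fun l hl l' hl' hne => absurd
            ((Finset.mem_singleton.1 hl).trans (Finset.mem_singleton.1 hl').symm) hne) x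
        simpa using this) hdense
      unc := fun F a b h x => (hunc F a b h.1 h.2 x).trans (habs x)
      dens := hdense
      avg := fun η hη => by
        obtain ⟨m, hm, h⟩ := havg η hη
        exact ⟨m, hm, fun v a b hab h1 h2 h3 => h v a b
          (fun l hl => hab.1 l (Finset.mem_range.2 hl))
          (fun l hl l' hl' => hab.2 l (Finset.mem_range.2 hl) l' (Finset.mem_range.2 hl'))
          h1 h2 h3⟩ }
  exact conclusion k hk E (ekOf k Φ hΦ c L₀ hc hlow hup) T c' hc' hT f L hf ε hε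

/-- The spaces `C(Q)`. -/
theorem compact_case.{t, u} (hI : ST_IND.{t}) (Q : Type t) [TopologicalSpace Q] [CompactSpace Q]
    [T2Space Q] (n : ℕ) (hQ : derivedSet^[n] (Set.univ : Set Q) = ∅) :
    (∃ (Γ : Type t) (_ : Nonempty Γ) (_ : TopologicalSpace Γ) (_ : DiscreteTopology Γ)
      (Φ : C(Q, ℝ) → C₀(Γ, ℝ)) (c L₀ : ℝ), 0 < c ∧ (∀ γ, ContDiff ℝ ∞ fun x => Φ x γ) ∧
      (∀ x y, c * ‖x - y‖ ≤ ‖Φ x - Φ y‖) ∧ ∀ x y, ‖Φ x - Φ y‖ ≤ L₀ * ‖x - y‖) ∧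
    ∀ (Y : Type u) [NormedAddCommGroup Y] [NormedSpace ℝ Y] (T : Y →L[ℝ] C(Q, ℝ)) (c' : ℝ)
      (_ : 0 < c') (_ : ∀ y, c' * ‖y‖ ≤ ‖T y‖) (f : Y → ℝ) (L : ℝ≥0) (_ : LipschitzWith L f)
      (ε : ℝ) (_ : 0 < ε),
      ∃ K : Y → ℝ, ContDiff ℝ ∞ K ∧ LipschitzWith L K ∧ ∀ y, |f y - K y| < ε := by
  obtain ⟨r, hn, hr⟩ := exists_rank n hQ
  obtain ⟨Γ, ⟨K⟩⟩ := hI n Q r ⟨hn, hr⟩
  refine ⟨?_, ?_⟩
  · let _ : TopologicalSpace (Option Γ) := ⊥
    have _ : DiscreteTopology (Option Γ) := ⟨rfl⟩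
    obtain ⟨Φ, h1, h2, h3⟩ := toC0 (ekOpt K)
    exact ⟨Option Γ, inferInstance, inferInstance, inferInstance, Φ, K.c, K.L, K.c0, h1, h2, h3⟩
  · intro Y _ _ T c' hc' hT f L hf ε hε
    have h1 := Ret.nonempty hn hr
    have h2 := Ret.directed hn hr
    exact conclusion ⊤ le_top (Ret.sys hn hr) (ekComp K T hc' hT) T c' hc' hT f L hf ε hε

end Pool.Agent.Helper8.DP
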