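import Pool.Agent.Helper8.DP.Avg

/-! The dependence of the averaged map on the code. -/

open Set Filter Topology MeasureTheory

namespace Pool.Agent.Helper8.DP

open Pool.Agent.Helper94.UF

set_option linter.unusedSectionVars false

section variation

variable {X : Type*} [NormedAddCommGroup X] [NormedSpace ℝ X] {ι : Type*} [Preorder ι]
variable (E : DPS X ι) (ψ : X →ₗ[ℝ] ℝ) (x : X) (t0 t1 : ι)

/-- The variations along non-overlapping families below `s`. -/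
def vs (s : ι) : Set ℝ := {r | ∃ (N : ℕ) (a b : ℕ → ι), NonOv (Finset.range N) a b ∧
  (∀ l < N, t0 ≤ a l) ∧ (∀ l < N, b l ≤ s) ∧ (∀ l < N, b l ≤ t1) ∧
  r = ∑ l ∈ Finset.range N, |ψ (E.P (b l) x - E.P (a l) x)|}

theorem zero_mem_vs (s : ι) : (0 : ℝ) ∈ vs E ψ x t0 t1 s :=
  ⟨0, fun _ => s, fun _ => s, ⟨fun l hl => by simp at hl, fun l hl => by simp at hl⟩,
    fun l hl => by omega, fun l hl => by omega, fun l hl => by omega, by simp⟩

theorem vs_le (hψ : ∀ w, ψ w ≤ ‖w‖) {s : ι} {r : ℝ} (hr : r ∈ vs E ψ x t0 t1 s) :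
    r ≤ 2 * (E.C * ‖E.P t1 x - E.P t0 x‖) := by
  classical
  obtain ⟨N, a, b, hN, h0, _, h1, rfl⟩ := hr
  set y : X := E.P t1 x - E.P t0 x with hy
  set t : ℕ → ℝ := fun l => ψ (E.P (b l) y - E.P (a l) y) with ht
  have hty : ∀ l ∈ Finset.range N, |ψ (E.P (b l) x - E.P (a l) x)| = |t l| := by
    intro l hl
    have hl' := Finset.mem_range.1 hl
    have e0 := h0 l hl'
    have e1 := h1 l hl'
    have e2 := hN.1 l hl
    simp only [ht, hy, map_sub, E.PP _ _ e1, E.PP _ _ (e2.trans e1), E.PP' _ _ e0,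
      E.PP' _ _ (e0.trans e2)]
    congr 1
    ring
  rw [Finset.sum_congr rfl hty]
  have e1 : ∑ l ∈ Finset.range N, |t l| =
      ∑ l ∈ (Finset.range N).filter (fun l => 0 ≤ t l), t l +
        ∑ l ∈ (Finset.range N).filter (fun l => ¬ 0 ≤ t l), - t l := by
    rw [← Finset.sum_filter_add_sum_filter_not (Finset.range N) (fun l => 0 ≤ t l)]
    congr 1
    · exact Finset.sum_congr rfl fun l hl => abs_of_nonneg (Finset.mem_filter.1 hl).2
    · exact Finset.sum_congr rfl fun l hl =>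
        abs_of_nonpos (le_of_lt (not_le.1 (Finset.mem_filter.1 hl).2))
  have key : ∀ s ⊆ Finset.range N, ‖∑ l ∈ s, (E.P (b l) y - E.P (a l) y)‖ ≤ E.C * ‖y‖ :=
    fun s hs => E.unc s a b (hN.mono hs) y
  have e2 : ∑ l ∈ (Finset.range N).filter (fun l => 0 ≤ t l), t l ≤ E.C * ‖y‖ := by
    simp only [ht]
    rw [← map_sum]
    exact (hψ _).trans (key _ (Finset.filter_subset _ _))
  have e3 : ∑ l ∈ (Finset.range N).filter (fun l => ¬ 0 ≤ t l), - t l ≤ E.C * ‖y‖ := by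
    rw [Finset.sum_neg_distrib]
    simp only [ht]
    rw [← map_sum, ← map_neg]
    exact (hψ _).trans ((norm_neg _).trans_le (key _ (Finset.filter_subset _ _)))
  rw [e1]
  linarith

/-- The variation below `s`. -/
noncomputable def W (s : ι) : ℝ := sSup (vs E ψ x t0 t1 s)

variable {ψ}

theorem bdd_vs (hψ : ∀ w, ψ w ≤ ‖w‖) (s : ι) : BddAbove (vs E ψ x t0 t1 s) :=
  ⟨_, fun _ hr => vs_le E ψ x t0 t1 hψ hr⟩

theorem W_nonneg (hψ : ∀ w, ψ w ≤ ‖w‖) (s : ι) : 0 ≤ W E ψ x t0 t1 s :=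
  le_csSup (bdd_vs E x t0 t1 hψ s) (zero_mem_vs E ψ x t0 t1 s)

theorem W_le (hψ : ∀ w, ψ w ≤ ‖w‖) (s : ι) :
    W E ψ x t0 t1 s ≤ 2 * (E.C * ‖E.P t1 x - E.P t0 x‖) :=
  csSup_le ⟨0, zero_mem_vs E ψ x t0 t1 s⟩ fun _ hr => vs_le E ψ x t0 t1 hψ hr

theorem W_mono (hψ : ∀ w, ψ w ≤ ‖w‖) {s s' : ι} (h : s ≤ s') :
    W E ψ x t0 t1 s ≤ W E ψ x t0 t1 s' := by
  refine csSup_le_csSup (bdd_vs E x t0 t1 hψ s') ⟨0, zero_mem_vs E ψ x t0 t1 s⟩ ?_
  rintro r ⟨N, a, b, hN, h0, hs, h1, rfl⟩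
  exact ⟨N, a, b, hN, h0, fun l hl => (hs l hl).trans h, h1, rfl⟩

theorem W_add (hψ : ∀ w, ψ w ≤ ‖w‖) {s a b s' : ι} (h0 : t0 ≤ s) (h1 : s ≤ a) (h2 : a ≤ b)
    (h3 : b ≤ s') (h4 : b ≤ t1) :
    W E ψ x t0 t1 s + |ψ (E.P b x - E.P a x)| ≤ W E ψ x t0 t1 s' := by
  classical
  rw [← le_sub_iff_add_le]
  refine csSup_le ⟨0, zero_mem_vs E ψ x t0 t1 s⟩ ?_
  rintro r ⟨N, a₀, b₀, hN, g0, gs, g1, rfl⟩
  rw [le_sub_iff_add_le]
  refine le_csSup (bdd_vs E x t0 t1 hψ s') ?_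
  have hr : ∀ l, l < N → l ∈ Finset.range N := fun l hl => Finset.mem_range.2 hl
  refine ⟨N + 1, fun l => if l < N then a₀ l else a, fun l => if l < N then b₀ l else b,
    ⟨fun l _ => ?_, fun l _ l' _ hne => ?_⟩, fun l _ => ?_, fun l _ => ?_, fun l _ => ?_, ?_⟩
  · change (if l < N then a₀ l else a) ≤ (if l < N then b₀ l else b)
    by_cases h : l < N
    · rw [if_pos h, if_pos h]; exact hN.1 l (hr l h)
    · rw [if_neg h, if_neg h]; exact h2
  · change (if l < N then b₀ l else b) ≤ (if l' < N then a₀ l' else a) ∨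
      (if l' < N then b₀ l' else b) ≤ (if l < N then a₀ l else a)
    by_cases h : l < N <;> by_cases h' : l' < N
    · rw [if_pos h, if_pos h, if_pos h', if_pos h']; exact hN.2 l (hr l h) l' (hr l' h') hne
    · rw [if_pos h, if_neg h']; exact Or.inl ((gs l h).trans h1)
    · right; rw [if_pos h', if_neg h]; exact (gs l' h').trans h1
    · rename_i q1 q2
      have := Finset.mem_range.1 q1
      have := Finset.mem_range.1 q2
      omega
  · change t0 ≤ (if l < N then a₀ l else a)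
    by_cases h : l < N
    · rw [if_pos h]; exact g0 l h
    · rw [if_neg h]; exact h0.trans h1
  · change (if l < N then b₀ l else b) ≤ s'
    by_cases h : l < N
    · rw [if_pos h]; exact (gs l h).trans (h1.trans (h2.trans h3))
    · rw [if_neg h]; exact h3
  · change (if l < N then b₀ l else b) ≤ t1
    by_cases h : l < N
    · rw [if_pos h]; exact g1 l h
    · rw [if_neg h]; exact h4
  · rw [Finset.sum_range_succ]
    simp only [lt_self_iff_false, if_false]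
    congr 1
    refine Finset.sum_congr rfl fun l hl => ?_
    rw [if_pos (Finset.mem_range.1 hl), if_pos (Finset.mem_range.1 hl)]

end variation

variable {Γ : Type*} {X : Type*} [NormedAddCommGroup X] [NormedSpace ℝ X] {ι : Type*}
  [Preorder ι] {Y : Type*} [NormedAddCommGroup Y] [NormedSpace ℝ Y] {T : Y →L[ℝ] X}
  {k : WithTop ℕ∞} {E : DPS X ι} {K : EK k Y Γ} {p : Seminorm ℝ X} {M ε : ℝ}
variable (D : Fam E K T p ε) {δ : ℝ} {φ φ' : Γ → ℝ}

/-- The averaged variation below the projections attached to a code. -/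
noncomputable def V (ψ : X →ₗ[ℝ] ℝ) (x : X) (t0 t1 : ι) (A : Cd Γ) : ℝ :=
  (D.m : ℝ)⁻¹ * ∑ j ∈ Finset.range D.m, W E ψ x t0 t1 (D.S j A)

theorem V_nonneg {ψ : X →ₗ[ℝ] ℝ} (hψ : ∀ w, ψ w ≤ ‖w‖) (x : X) (t0 t1 : ι) (A : Cd Γ) :
    0 ≤ V D ψ x t0 t1 A :=
  mul_nonneg (inv_nonneg.2 (m_pos D).le) (Finset.sum_nonneg fun _ _ => W_nonneg E x t0 t1 hψ _)

theorem V_le {ψ : X →ₗ[ℝ] ℝ} (hψ : ∀ w, ψ w ≤ ‖w‖) (x : X) (t0 t1 : ι) (A : Cd Γ) :
    V D ψ x t0 t1 A ≤ 2 * (E.C * ‖E.P t1 x - E.P t0 x‖) := by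
  have hm := m_pos D
  rw [V, inv_mul_le_iff₀ hm]
  calc ∑ j ∈ Finset.range D.m, W E ψ x t0 t1 (D.S j A)
      ≤ ∑ _j ∈ Finset.range D.m, 2 * (E.C * ‖E.P t1 x - E.P t0 x‖) :=
        Finset.sum_le_sum fun j _ => W_le E x t0 t1 hψ _
    _ = D.m * (2 * (E.C * ‖E.P t1 x - E.P t0 x‖)) := by
        rw [Finset.sum_const, Finset.card_range, nsmul_eq_mul]

theorem V_mono {ψ : X →ₗ[ℝ] ℝ} (hψ : ∀ w, ψ w ≤ ‖w‖) (x : X) (t0 t1 : ι) {A' A : Cd Γ}
    (h : A' ⊆ A) : V D ψ x t0 t1 A' ≤ V D ψ x t0 t1 A :=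
  mul_le_mul_of_nonneg_left (Finset.sum_le_sum fun _ hj =>
    W_mono E x t0 t1 hψ (D.mono_A h (Finset.mem_range.1 hj).le)) (inv_nonneg.2 (m_pos D).le)

theorem G_diff_le {ψ : X →ₗ[ℝ] ℝ} (hψ : ∀ w, ψ w ≤ ‖w‖) (x : X) {t0 t1 : ι}
    {A₁ A₂ B B' : Cd Γ} (h1 : A₁ ⊆ B) (h2 : B ⊆ A₂) (h1' : A₁ ⊆ B') (h2' : B' ⊆ A₂)
    (h0 : t0 ≤ D.S 0 A₁) (h3 : D.S D.m A₂ ≤ t1) :
    |ψ (G D B x) - ψ (G D B' x)| ≤ 2 * (V D ψ x t0 t1 A₂ - V D ψ x t0 t1 A₁) := by
  have hm := m_pos D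
  have one : ∀ {B : Cd Γ}, A₁ ⊆ B → B ⊆ A₂ → ∀ j < D.m,
      |ψ (E.P (D.S j B) x - E.P (D.S j A₁) x)| ≤
        W E ψ x t0 t1 (D.S j A₂) - W E ψ x t0 t1 (D.S j A₁) := by
    intro B h1 h2 j hj
    have := W_add E x t0 t1 hψ (h0.trans (D.mono_j A₁ (Nat.zero_le j))) (le_refl (D.S j A₁))
      (D.mono_A h1 hj.le) (D.mono_A h2 hj.le)
      ((D.mono_A h2 hj.le).trans ((D.mono_j A₂ hj.le).trans h3))
    linarith
  have e1 : ψ (G D B x) - ψ (G D B' x) = (D.m : ℝ)⁻¹ * ∑ j ∈ Finset.range D.m,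
      (ψ (E.P (D.S j B) x - E.P (D.S j A₁) x) - ψ (E.P (D.S j B') x - E.P (D.S j A₁) x)) := by
    rw [G_apply, G_apply, map_smul, map_smul, smul_eq_mul, smul_eq_mul, ← mul_sub, map_sum,
      map_sum, ← Finset.sum_sub_distrib]
    congr 1
    refine Finset.sum_congr rfl fun j _ => ?_
    rw [map_sub, map_sub]; ring
  rw [e1, abs_mul, abs_of_pos (inv_pos.2 hm), V, V, ← mul_sub, ← Finset.sum_sub_distrib,
    mul_left_comm]
  refine mul_le_mul_of_nonneg_left ?_ (inv_nonneg.2 hm.le)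
  rw [Finset.mul_sum]
  refine (Finset.abs_sum_le_sum_abs _ _).trans (Finset.sum_le_sum fun j hj => ?_)
  have a1 := one h1 h2 j (Finset.mem_range.1 hj)
  have a2 := one h1' h2' j (Finset.mem_range.1 hj)
  have a3 := abs_sub (ψ (E.P (D.S j B) x - E.P (D.S j A₁) x))
    (ψ (E.P (D.S j B') x - E.P (D.S j A₁) x))
  linarith

/-- The two-sided shift of an antitone function. -/
theorem anti_shift {H : ℝ → ℝ} (hH : Antitone H) {R : ℝ} (h0 : ∀ u, 0 ≤ H u)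
    (h1 : ∀ u, H u ≤ R) {κ a b : ℝ} (hκ : 0 ≤ κ) :
    ∫ v in a..b, (H (v - κ) - H (v + κ)) ≤ 2 * κ * R := by
  have hi : ∀ c d, IntervalIntegrable H volume c d := fun c d => hH.intervalIntegrable
  have hp : Antitone fun u => H (u + κ) := fun x y hxy => hH (by linarith)
  have hm : Antitone fun u => H (u - κ) := fun x y hxy => hH (by linarith)
  rw [intervalIntegral.integral_sub hm.intervalIntegrable hp.intervalIntegrable,
    intervalIntegral.integral_comp_add_right, intervalIntegral.integral_comp_sub_right]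
  have e1 : (∫ u in (a - κ)..(a + κ), H u) + ∫ u in (a + κ)..(b + κ), H u =
      ∫ u in (a - κ)..(b + κ), H u := intervalIntegral.integral_add_adjacent_intervals (hi _ _) (hi _ _)
  have e2 : (∫ u in (a - κ)..(b - κ), H u) + ∫ u in (b - κ)..(b + κ), H u =
      ∫ u in (a - κ)..(b + κ), H u := intervalIntegral.integral_add_adjacent_intervals (hi _ _) (hi _ _)
  have e3 : ∫ u in (a - κ)..(a + κ), H u ≤ 2 * κ * R := by
    have : ∫ u in (a - κ)..(a + κ), H u ≤ ∫ _u in (a - κ)..(a + κ), R :=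
      intervalIntegral.integral_mono_on (by linarith) (hi _ _) intervalIntegrable_const
        fun u _ => h1 u
    rw [intervalIntegral.integral_const, smul_eq_mul] at this
    nlinarith
  have e4 : 0 ≤ ∫ u in (b - κ)..(b + κ), H u :=
    intervalIntegral.integral_nonneg (by linarith) fun u _ => h0 u
  linarith

open Classical in
/-- The time spent at the code `A` on the `i`-th unit interval of scales. -/
noncomputable def cI (δ : ℝ) (φ : Γ → ℝ) (i : ℕ) (A : Cd Γ) : ℝ :=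
  ∫ v in (i : ℝ)..((i + 1 : ℕ) : ℝ), if cu δ φ v = A then (1 : ℝ) else 0

theorem wq_split (hδ : 0 < δ) (hφ : IsC0 φ) (n : ℕ) (A : Cd Γ) :
    wq δ n A φ = (n : ℝ)⁻¹ * ∑ i ∈ Finset.range n, cI δ φ i A := by
  classical
  rw [wq]
  congr 1
  have h3 := intervalIntegral.sum_integral_adjacent_intervals (μ := volume)
    (f := fun v => if cu δ φ v = A then (1 : ℝ) else 0) (a := fun i : ℕ => (i : ℝ)) (n := n)
    fun i _ => by convert ind_integrable hδ hφ A _ _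
  rw [Nat.cast_zero] at h3
  rw [← h3]
  refine Finset.sum_congr rfl fun i _ => ?_
  rw [cI]

theorem cI_zero {i : ℕ} {A : Cd Γ} (h : ∀ v ∈ Icc (i : ℝ) ((i + 1 : ℕ) : ℝ), cu δ φ v ≠ A) :
    cI δ φ i A = 0 := by
  classical
  have : ∫ v in (i : ℝ)..((i + 1 : ℕ) : ℝ), (if cu δ φ v = A then (1 : ℝ) else 0) =
      ∫ _v in (i : ℝ)..((i + 1 : ℕ) : ℝ), (0 : ℝ) :=
    intervalIntegral.integral_congr fun u hu => by
      rw [uIcc_of_le (by push_cast; linarith)] at hu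
      exact if_neg (h u hu)
  rw [cI, this]
  simp

theorem sum_cI (hδ : 0 < δ) (hφ : IsC0 φ) (𝒜 : Finset (Cd Γ)) (f : Cd Γ → ℝ) {i : ℕ}
    (h𝒜 : ∀ v ∈ Icc (i : ℝ) ((i + 1 : ℕ) : ℝ), cu δ φ v ∈ 𝒜) :
    ∑ A ∈ 𝒜, cI δ φ i A * f A = ∫ v in (i : ℝ)..((i + 1 : ℕ) : ℝ), f (cu δ φ v) := by
  classical
  have := sum_int hδ hφ 𝒜 f (a := (i : ℝ)) (b := ((i + 1 : ℕ) : ℝ)) (by push_cast; linarith) h𝒜
  rw [← this]
  refine Finset.sum_congr rfl fun A _ => ?_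
  rw [cI]

end Pool.Agent.Helper8.DP
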