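import Pool.Agent.Helper8.DP.Glue
import Pool.Agent.Helper8.DP.Ft
import Pool.Agent.Helper94.UF.Main

/-! The smooth approximation, for a seminorm equivalent to the norm. -/

open scoped ContDiff
open Set Filter Topology MeasureTheory

namespace Pool.Agent.Helper8.DP

open Pool.Agent.Helper94.UF

set_option linter.unusedSectionVars false

variable {Γ : Type*} {X : Type*} [NormedAddCommGroup X] [NormedSpace ℝ X] {ι : Type*}
  [Preorder ι] {Y : Type*} [NormedAddCommGroup Y] [NormedSpace ℝ Y] {T : Y →L[ℝ] X}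
variable {k : WithTop ℕ∞} {E : DPS X ι} {K : EK k Y Γ} {p : Seminorm ℝ X} {M ε : ℝ}
variable (D : Fam E K T p ε) {δ L : ℝ} (g : Cd Γ → X → ℝ)

/-- The support of the smooth map is contained in the sets attached to the selected codes. -/
theorem P_Ft (hδ : 0 < δ) (x : Y) (G : Finset Γ) (z : Γ → ℝ) {v : ℝ} (hv : v ≤ -1) :
    E.P (D.S D.m (cu δ (ph (K.Φ x) (δ / 16) G z) v)) (Ft D hδ L x) = Ft D hδ L x := by
  refine Ft_supp D hδ ?_
  refine D.mono_A ?_ le_rfl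
  have h1 : code (13 / 16 * δ + 1 / 16 * δ) (K.Φ x) ⊆
      code (13 / 16 * δ) (ph (K.Φ x) (δ / 16) G z) :=
    code_close (K.isC0 x) (isC0_ph (K.isC0 x) _ _ _) (by positivity) (by positivity) fun γ => by
      rw [abs_sub_comm]
      exact (ph_sub_le (by positivity) G z γ).trans (by linarith)
  have e : 13 / 16 * δ + 1 / 16 * δ = 7 / 8 * δ := by ring
  rw [e] at h1
  refine h1.trans ?_
  unfold cu
  refine code_anti (isC0_ph (K.isC0 x) _ _ _) (by positivity) ?_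
  have h3 : Real.exp v ≤ Real.exp (-1) := Real.exp_le_exp.2 hv
  have h4 : Real.exp (-1) ≤ 1 / 2 := by
    rw [Real.exp_neg, one_div]
    exact inv_anti₀ (by norm_num) (by linarith [Real.exp_one_gt_d9])
  nlinarith

/-- The approximation. -/
noncomputable def Kf (hδ : 0 < δ) (L : ℝ) (x : Y) : ℝ :=
  ∑ A ∈ Cx K δ x, sm K hδ (Hq δ A) x * g A (Ft D hδ L x)

theorem sm_Hq_zero (hδ : 0 < δ) {x : Y} {A : Cd Γ} (h : A ∉ Cx K δ x) :
    sm K hδ (Hq δ A) x = 0 := by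
  classical
  have : ∀ z : Γ → ℝ, Hq δ A (ph (K.Φ x) (δ / 16) (Gx K hδ x) z) = 0 := fun z => by
    unfold Hq
    have h1 : ∫ v in (-2 : ℝ)..(-1),
        (if cu δ (ph (K.Φ x) (δ / 16) (Gx K hδ x) z) v = A then (1 : ℝ) else 0) =
        ∫ _v in (-2 : ℝ)..(-1), (0 : ℝ) := by
      refine intervalIntegral.integral_congr fun v hv => ?_
      rw [uIcc_of_le (by norm_num)] at hv
      refine if_neg fun he => h ?_
      rw [← he]
      exact cu_mem_Cx hδ x _ z hv.1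
    rw [h1]; simp
  rw [sm]
  simp [this]

theorem Kf_eq (hδ : 0 < δ) (L : ℝ) {x : Y} {𝒜 : Finset (Cd Γ)} (h : Cx K δ x ⊆ 𝒜) :
    Kf D g hδ L x = ∑ A ∈ 𝒜, sm K hδ (Hq δ A) x * g A (Ft D hδ L x) := by
  rw [Kf]
  refine Finset.sum_subset h fun A _ hA => ?_
  rw [sm_Hq_zero hδ hA, zero_mul]

theorem inner_int (hδ : 0 < δ) (x : Y) (G : Finset Γ) (𝒜 : Finset (Cd Γ)) (y : X) {η : ℝ}
    {hη : 0 < η} : Integrable (fun z => ∫ v in (-2 : ℝ)..(-1),
      sv g δ 𝒜 (ph (K.Φ x) (δ / 16) G z) y v) (nu Γ η hη) := by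
  have h1 : ∀ z : Γ → ℝ, ∫ v in (-2 : ℝ)..(-1), sv g δ 𝒜 (ph (K.Φ x) (δ / 16) G z) y v =
      ∑ A ∈ 𝒜, Hq δ A (ph (K.Φ x) (δ / 16) G z) * g A y := fun z =>
    (sum_Hq g hδ 𝒜 (isC0_ph (K.isC0 x) _ _ _) y).symm
  simp only [h1]
  exact integrable_finsetSum _ fun A _ => ((tame_Hq hδ A).integrable (K.isC0 x) _ G).mul_const _

theorem Kf_int (hδ : 0 < δ) (L : ℝ) {x : Y} {𝒜 : Finset (Cd Γ)} (h : Cx K δ x ⊆ 𝒜)
    {G : Finset Γ} (hG : Gx K hδ x ⊆ G) :
    Kf D g hδ L x = ∫ z, (∫ v in (-2 : ℝ)..(-1),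
      sv g δ 𝒜 (ph (K.Φ x) (δ / 16) G z) (Ft D hδ L x) v) ∂(nu Γ (δ / 16) (by positivity)) := by
  have h1 : ∀ z : Γ → ℝ, ∫ v in (-2 : ℝ)..(-1),
      sv g δ 𝒜 (ph (K.Φ x) (δ / 16) G z) (Ft D hδ L x) v =
      ∑ A ∈ 𝒜, Hq δ A (ph (K.Φ x) (δ / 16) G z) * g A (Ft D hδ L x) := fun z =>
    (sum_Hq g hδ 𝒜 (isC0_ph (K.isC0 x) _ _ _) _).symm
  simp only [h1]
  rw [integral_finsetSum _ fun A _ =>
    ((tame_Hq hδ A).integrable (K.isC0 x) _ G).mul_const _, Kf_eq D g hδ L h]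
  refine Finset.sum_congr rfl fun A _ => ?_
  rw [integral_mul_const, sm_eq K hδ (tame_Hq hδ A) hG]

variable {f : X → ℝ} {Λ c : ℝ}

theorem Kf_lip (hδ : 0 < δ) (hΛ : 0 ≤ Λ) (hc : 0 ≤ c)
    (hf : ∀ x y, |f x - f y| ≤ Λ * p (x - y))
    (hg1 : ∀ A y y', |g A y - g A y'| ≤ Λ * p (E.P (D.S D.m A) y - E.P (D.S D.m A) y'))
    (hg2 : ∀ A y, |g A y - f (E.P (D.S D.m A) y)| ≤ c * (1 / 2) ^ A.card) {x y : Y}
    (hxy : K.L * ‖x - y‖ ≤ δ * Real.exp (-3)) :
    |Kf D g hδ L x - Kf D g hδ L y| ≤ Λ * p (Ft D hδ L x - Ft D hδ L y) +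
      8 * c * ((K.L * ‖x - y‖) / (δ * Real.exp (-3))) := by
  classical
  set G : Finset Γ := Gx K hδ x ∪ Gx K hδ y with hG
  set 𝒜 : Finset (Cd Γ) := Cx K δ x ∪ Cx K δ y with h𝒜
  have hL := K.L0
  rw [Kf_int D g hδ L (𝒜 := 𝒜) Finset.subset_union_left (G := G) Finset.subset_union_left,
    Kf_int D g hδ L (𝒜 := 𝒜) Finset.subset_union_right (G := G) Finset.subset_union_right,
    ← integral_sub (DP.inner_int g hδ x G 𝒜 _) (DP.inner_int g hδ y G 𝒜 _)]
  have h1 := norm_integral_le_of_norm_le_const (μ := nu Γ (δ / 16) (by positivity))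
    (C := Λ * p (Ft D hδ L x - Ft D hδ L y) +
      8 * c * ((K.L * ‖x - y‖) / (δ * Real.exp (-3))))
    (f := fun z => (∫ v in (-2 : ℝ)..(-1),
      sv g δ 𝒜 (ph (K.Φ x) (δ / 16) G z) (Ft D hδ L x) v) - ∫ v in (-2 : ℝ)..(-1),
      sv g δ 𝒜 (ph (K.Φ y) (δ / 16) G z) (Ft D hδ L y) v) (ae_of_all _ fun z => by
        rw [Real.norm_eq_abs]
        refine inner_bound g D hδ hΛ hc hf hg1 hg2 (isC0_ph (K.isC0 x) _ _ _)
          (isC0_ph (K.isC0 y) _ _ _) (by positivity) (fun γ => ?_) hxy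
          (fun v hv => P_Ft D hδ x G z hv.2) (fun v hv => P_Ft D hδ y G z hv.2)
          (fun v hv => Finset.mem_union_left _ (cu_mem_Cx hδ x G z hv.1))
          (fun v hv => Finset.mem_union_right _ (cu_mem_Cx hδ y G z hv.1))
        unfold ph
        rw [add_sub_add_right_eq_sub]
        exact K.upper x y γ)
  rw [Real.norm_eq_abs] at h1
  simpa using h1

theorem Kf_close (hδ : 0 < δ) (hc : 0 ≤ c)
    (hg2 : ∀ A y, |g A y - f (E.P (D.S D.m A) y)| ≤ c * (1 / 2) ^ A.card) (x : Y) :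
    |Kf D g hδ L x - f (Ft D hδ L x)| ≤ c := by
  have h0 : f (Ft D hδ L x) =
      ∫ _z : Γ → ℝ, f (Ft D hδ L x) ∂(nu Γ (δ / 16) (by positivity)) := by simp
  rw [Kf_int D g hδ L (𝒜 := Cx K δ x) subset_rfl (G := Gx K hδ x) subset_rfl, h0,
    ← integral_sub (DP.inner_int g hδ x _ _ _) (integrable_const _)]
  have h1 := norm_integral_le_of_norm_le_const (μ := nu Γ (δ / 16) (by positivity)) (C := c)
    (f := fun z => (∫ v in (-2 : ℝ)..(-1),
      sv g δ (Cx K δ x) (ph (K.Φ x) (δ / 16) (Gx K hδ x) z) (Ft D hδ L x) v) -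
        f (Ft D hδ L x)) (ae_of_all _ fun z => by
        rw [Real.norm_eq_abs]
        exact inner_close g D hδ hc hg2 (isC0_ph (K.isC0 x) _ _ _)
          (fun v hv => P_Ft D hδ x _ z hv.2) (fun v hv => cu_mem_Cx hδ x _ z hv.1))
  rw [Real.norm_eq_abs] at h1
  simpa using h1

theorem Kf_contDiff (hδ : 0 < δ) (hL : 0 < L) (hk : k ≤ ∞) (hg : ∀ A, ContDiff ℝ ∞ (g A)) :
    ContDiff ℝ k (Kf D g hδ L) := by
  rw [contDiff_iff_contDiffAt]
  intro x0
  set 𝒜 : Finset (Cd Γ) := (code (1 / 32 * δ) (K.Φ x0)).powerset with h𝒜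
  have h1 : ContDiff ℝ k fun x : Y =>
      ∑ A ∈ 𝒜, sm K hδ (Hq δ A) x * g A (Ft D hδ L x) :=
    ContDiff.sum fun A _ => (sm_contDiff K hδ hk (tame_Hq hδ A)).mul
      (((hg A).of_le hk).comp (Ft_contDiff D hδ hL hk))
  refine (h1.contDiffAt (x := x0)).congr_of_eventuallyEq ?_
  have hKL := K.L0
  filter_upwards [Metric.closedBall_mem_nhds x0 (show 0 < δ / (32 * K.L) by positivity)] with x hx
  have hx' : ‖x - x0‖ ≤ δ / (32 * K.L) := by rwa [mem_closedBall_iff_norm] at hx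
  refine Kf_eq D g hδ L ?_
  rw [Cx, h𝒜]
  refine Finset.powerset_mono.2 ?_
  have h2 : code (1 / 32 * δ + 1 / 32 * δ) (K.Φ x) ⊆ code (1 / 32 * δ) (K.Φ x0) :=
    code_close (K.isC0 x) (K.isC0 x0) (by positivity) (by positivity) fun γ =>
      (near_close hδ hx' γ).trans (by linarith)
  have e : 1 / 32 * δ + 1 / 32 * δ = 1 / 16 * δ := by ring
  rwa [e] at h2

/-- **Main theorem for seminorms.** -/
theorem main_seminorm [IsDirectedOrder ι] [Nonempty ι] (E : DPS X ι)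
    (K : EK k Y Γ) (T : Y →L[ℝ] X) (hk : k ≤ ∞) (hM : 0 < M)
    (hp : ∀ x, p x ≤ M * ‖x‖) (hq : ∀ x, ‖x‖ ≤ M * p x) (hqY : ∀ y : Y, ‖y‖ ≤ M * p (T y))
    {C₀ : ℝ} (hC : 1 < C₀) {f : X → ℝ} {Λ : ℝ} (hΛ : 0 ≤ Λ)
    (hf : ∀ x y, |f x - f y| ≤ Λ * p (x - y)) {ϵ : ℝ} (hϵ : 0 < ϵ) :
    ∃ h : Y → ℝ, ContDiff ℝ k h ∧ (∀ x y, |h x - h y| ≤ C₀ * Λ * p (T x - T y)) ∧
      ∀ x, |f (T x) - h x| < ϵ := by
  rcases hΛ.eq_or_lt with h0 | hΛ0
  · refine ⟨fun y => f (T y), ?_, fun x y => ?_, fun x => by simpa using hϵ⟩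
    · have : (fun y => f (T y)) = fun _ => f 0 := by
        funext x
        have := hf (T x) 0
        rw [← h0, zero_mul] at this
        linarith [abs_nonpos_iff.1 this]
      rw [this]; exact contDiff_const
    · have := hf (T x) (T y)
      rw [← h0] at this ⊢
      simpa using this
  have hEC := E.C0
  have hC3 := C3_pos E K T
  have hKL := K.L0
  -- the parameters
  set ε : ℝ := (C₀ - 1) / 4 with hε
  have hε0 : 0 < ε := by rw [hε]; linarith
  obtain ⟨D⟩ := exists_fam E K T hM hp hq hε0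
  set R₁ : ℝ := M * (16 * Real.exp 3 * E.C * C3 E K T * (K.L * M)) with hR₁
  have hR₁0 : 0 < R₁ := by positivity
  set η : ℝ := ε / R₁ with hη
  have hη0 : 0 < η := by positivity
  obtain ⟨m', hm', hav⟩ := E.exists_avg hη0
  set n : ℕ := 4 * m' with hn
  have hnR : (0 : ℝ) < n := by exact_mod_cast (by omega : 0 < n)
  set L : ℝ := (n : ℝ) with hLdef
  set R₂ : ℝ := Λ * (M * (C3 E K T * Real.exp L)) + 1 with hR₂
  have hR₂0 : 0 < R₂ := by positivity
  set δ : ℝ := min (Real.exp (-(L + 2))) (ϵ / (4 * R₂)) with hδd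
  have hδ : 0 < δ := lt_min (Real.exp_pos _) (by positivity)
  have hδ1 : δ ≤ Real.exp (-(L + 2)) := min_le_left _ _
  have hδ2 : δ ≤ ϵ / (4 * R₂) := min_le_right _ _
  have hδL1 : δ * Real.exp (L + 1) < 1 := by
    calc δ * Real.exp (L + 1) ≤ Real.exp (-(L + 2)) * Real.exp (L + 1) := by gcongr
      _ = Real.exp (-1) := by rw [← Real.exp_add]; ring_nf
      _ < 1 := by rw [Real.exp_lt_one_iff]; norm_num
  have hδL : δ * Real.exp L < 1 := by
    refine lt_of_le_of_lt ?_ hδL1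
    exact mul_le_mul_of_nonneg_left (Real.exp_le_exp.2 (by linarith)) hδ.le
  set c : ℝ := min (ϵ / 4) (ε * Λ * (δ * Real.exp (-3)) / (8 * (K.L * M))) with hcd
  have hc : 0 < c := lt_min (by positivity) (by positivity)
  have hc1 : c ≤ ϵ / 4 := min_le_left _ _
  have hc2 : c ≤ ε * Λ * (δ * Real.exp (-3)) / (8 * (K.L * M)) := min_le_right _ _
  choose g hgs hg1 hg2 using fun A : Cd Γ => moll E hM hp hΛ hf (D.S D.m A)
    (show 0 < c * (1 / 2) ^ A.card by positivity)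
  -- Lipschitz estimate for the smooth averaged map
  have hexp31 : Real.exp (-3) ≤ Real.exp (-1) := Real.exp_le_exp.2 (by norm_num)
  have hFt : ∀ x y : Y, K.L * ‖x - y‖ ≤ δ * Real.exp (-3) →
      p (Ft D hδ L x - Ft D hδ L y) ≤ (1 + 2 * ε) * p (T x - T y) := by
    intro x y hxy
    have hpt : ∀ (G : Finset Γ) (z : Γ → ℝ), p (F D δ L (ph (K.Φ x) (δ / 16) G z) (T x) -
        F D δ L (ph (K.Φ y) (δ / 16) G z) (T y)) ≤
        (1 + ε) * p (T x - T y) + M * (η * (16 * Real.exp 3 * E.C * C3 E K T * (K.L * ‖x - y‖))) := by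
      intro G z
      refine F_lip D hη0 hm' hav hM hp hδ hδL1 (isC0_ph (K.isC0 x) _ _ _)
        (isC0_ph (K.isC0 y) _ _ _) (by positivity) (fun γ => ?_) (hxy.trans (by gcongr))
        (fun γ => ?_)
      · unfold ph
        rw [add_sub_add_right_eq_sub]
        exact K.upper x y γ
      · rw [abs_sub_comm]
        refine (ph_sub_le (by positivity) G z γ).trans ?_
        have h1 := exp_neg_two
        have h2 : Real.exp (-2) ≤ Real.exp (-1) := Real.exp_le_exp.2 (by norm_num)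
        nlinarith
    refine (Ft_lip D hδ hnR hpt).trans ?_
    have hq' := hqY (x - y)
    rw [map_sub] at hq'
    have h2 : M * (η * (16 * Real.exp 3 * E.C * C3 E K T * (K.L * ‖x - y‖))) ≤
        ε * p (T x - T y) := by
      calc M * (η * (16 * Real.exp 3 * E.C * C3 E K T * (K.L * ‖x - y‖)))
          ≤ M * (η * (16 * Real.exp 3 * E.C * C3 E K T * (K.L * (M * p (T x - T y))))) := by gcongr
        _ = η * R₁ * p (T x - T y) := by rw [hR₁]; ring
        _ = ε * p (T x - T y) := by rw [hη, div_mul_cancel₀ _ hR₁0.ne']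
    linarith
  have hloc : ∀ x y : Y, ‖x - y‖ ≤ δ * Real.exp (-3) / K.L →
      |Kf D g hδ L x - Kf D g hδ L y| ≤ C₀ * Λ * p (T x - T y) := by
    intro x y hxy
    have hxy' : K.L * ‖x - y‖ ≤ δ * Real.exp (-3) := by
      calc K.L * ‖x - y‖ ≤ K.L * (δ * Real.exp (-3) / K.L) := by gcongr
        _ = δ * Real.exp (-3) := by field_simp
    refine (Kf_lip D g hδ hΛ hc.le hf hg1 hg2 hxy').trans ?_
    have h1 := hFt x y hxy'
    have h2 : 8 * c * ((K.L * ‖x - y‖) / (δ * Real.exp (-3))) ≤ ε * Λ * p (T x - T y) := by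
      calc 8 * c * ((K.L * ‖x - y‖) / (δ * Real.exp (-3)))
          ≤ 8 * (ε * Λ * (δ * Real.exp (-3)) / (8 * (K.L * M))) *
            ((K.L * (M * p (T x - T y))) / (δ * Real.exp (-3))) := by
            have hq' := hqY (x - y)
            rw [map_sub] at hq'
            gcongr
        _ = ε * Λ * p (T x - T y) := by field_simp
    calc Λ * p (Ft D hδ L x - Ft D hδ L y) + 8 * c * ((K.L * ‖x - y‖) / (δ * Real.exp (-3)))
        ≤ Λ * ((1 + 2 * ε) * p (T x - T y)) + ε * Λ * p (T x - T y) := by gcongr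
      _ = (1 + 3 * ε) * Λ * p (T x - T y) := by ring
      _ ≤ C₀ * Λ * p (T x - T y) := by
        have : 1 + 3 * ε ≤ C₀ := by rw [hε]; linarith
        have hpn := apply_nonneg p (T x - T y)
        gcongr
  refine ⟨Kf D g hδ L, Kf_contDiff D g hδ hnR hk hgs,
    fun x y => ?_, fun x => ?_⟩
  · have := global_lip (p := p.comp (T : Y →ₗ[ℝ] X)) (r := δ * Real.exp (-3) / K.L)
      (by positivity) (fun x y hxy => (hloc x y hxy).trans_eq (by
        rw [Seminorm.comp_apply, ← map_sub]; rfl)) x y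
    rw [Seminorm.comp_apply, map_sub] at this
    exact this
  have h1 := Kf_close D g (L := L) hδ hc.le hg2 x
  have h2 : |f (Ft D hδ L x) - f (T x)| ≤ Λ * (M * (C3 E K T * (δ * Real.exp L))) := by
    refine (hf _ _).trans ?_
    gcongr
    exact (hp _).trans (by gcongr; exact Ft_close D hδ hnR hδL x)
  have h3 : |f (T x) - Kf D g hδ L x| ≤
      |Kf D g hδ L x - f (Ft D hδ L x)| + |f (Ft D hδ L x) - f (T x)| := by
    rw [abs_sub_comm (f (T x))]
    exact abs_sub_le _ _ _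
  have h4 : Λ * (M * (C3 E K T * (δ * Real.exp L))) ≤ δ * R₂ := by
    rw [hR₂]
    nlinarith
  have h5 : δ * R₂ ≤ ϵ / 4 := by
    calc δ * R₂ ≤ ϵ / (4 * R₂) * R₂ := by gcongr
      _ = ϵ / 4 := by field_simp
  linarith

end Pool.Agent.Helper8.DP
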