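import Pool.Agent.Helper8.DP.Code

/-! Smoothing on the finite-dimensional range of a projection. -/

open scoped ContDiff
open Set Filter Topology MeasureTheory

namespace Pool.Agent.Helper8.DP

open Pool.Agent.Helper94.UF
open Pool.Agent.Helper94.CZ (law pi_law_ae contDiff_average)

set_option linter.unusedSectionVars false
set_option linter.style.haveILetI false

variable {X : Type*} [NormedAddCommGroup X] [NormedSpace ℝ X] {ι : Type*} [Preorder ι]
variable {p : Seminorm ℝ X} {M : ℝ}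

/-- Smooth approximation on a finite-dimensional range. -/
theorem moll (E : DPS X ι) (hM : 0 < M) (hp : ∀ x, p x ≤ M * ‖x‖) {f : X → ℝ} {Λ : ℝ}
    (hΛ : 0 ≤ Λ) (hf : ∀ x y, |f x - f y| ≤ Λ * p (x - y)) (S : ι) {κ : ℝ} (hκ : 0 < κ) :
    ∃ g : X → ℝ, ContDiff ℝ ∞ g ∧ (∀ y y', |g y - g y'| ≤ Λ * p (E.P S y - E.P S y')) ∧
      ∀ y, |g y - f (E.P S y)| ≤ κ := by
  set W := LinearMap.range (E.P S : X →ₗ[ℝ] X) with hW
  haveI : FiniteDimensional ℝ W := E.fin S
  set n := Module.finrank ℝ W with hn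
  let e : W ≃L[ℝ] (Fin n → ℝ) := ContinuousLinearEquiv.ofFinrankEq (by simp [hn])
  let Q : (Fin n → ℝ) →L[ℝ] X := W.subtypeL.comp (e.symm : (Fin n → ℝ) →L[ℝ] W)
  let R : X →L[ℝ] (Fin n → ℝ) := (e : W →L[ℝ] (Fin n → ℝ)).comp
    ((E.P S).codRestrict W fun x => ⟨x, rfl⟩)
  have hQR : ∀ y, Q (R y) = E.P S y := by
    intro y
    change ((e.symm (e ((E.P S).codRestrict W (fun x => ⟨x, rfl⟩) y)) : W) : X) = _
    rw [e.symm_apply_apply]
    rfl
  have hfc : Continuous f := continuous_of_lip hM hp hΛ hf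
  set η : ℝ := κ / (Λ * (M * ‖Q‖) + 1) with hη'
  have hη : 0 < η := by positivity
  have hηκ : Λ * (M * (‖Q‖ * η)) ≤ κ := by
    have h1 : Λ * (M * (‖Q‖ * η)) = (Λ * (M * ‖Q‖)) * κ / (Λ * (M * ‖Q‖) + 1) := by
      rw [hη']; ring
    rw [h1, div_le_iff₀ (by positivity)]
    nlinarith
  set μ : Measure (Fin n → ℝ) := Measure.pi fun _ : Fin n => law η hη with hμ
  have hcont : Continuous fun a : Fin n → ℝ => f (Q a) := hfc.comp Q.continuous
  have hbd : ∀ᵐ z ∂μ, ‖Q z‖ ≤ ‖Q‖ * η := by
    filter_upwards [pi_law_ae hη (ι := Fin n)] with z hz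
    refine (Q.le_opNorm z).trans ?_
    gcongr
    exact (pi_norm_le_iff_of_nonneg hη.le).2 hz
  have hdiff : ∀ y, ∀ᵐ z ∂μ, |f (Q (R y + z)) - f (E.P S y)| ≤ κ := by
    intro y
    filter_upwards [hbd] with z hz
    refine (hf _ _).trans (le_trans ?_ hηκ)
    rw [map_add, hQR, add_sub_cancel_left]
    gcongr
    exact (hp _).trans (by gcongr)
  have hint : ∀ y, Integrable (fun z => f (Q (R y + z))) μ := by
    intro y
    refine Integrable.of_bound
      ((hcont.comp (continuous_const.add continuous_id)).aestronglyMeasurable)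
      (|f (E.P S y)| + κ) ?_
    filter_upwards [hdiff y] with z hz
    rw [Real.norm_eq_abs]
    have := abs_add_le (f (E.P S y)) (f (Q (R y + z)) - f (E.P S y))
    have h2 : f (E.P S y) + (f (Q (R y + z)) - f (E.P S y)) = f (Q (R y + z)) := by ring
    rw [h2] at this
    linarith
  refine ⟨fun y => ∫ z, f (Q (R y + z)) ∂μ, ?_, ?_, ?_⟩
  · exact (contDiff_average hη hcont).comp R.contDiff
  · intro y y'
    rw [← integral_sub (hint y) (hint y')]
    have h1 := norm_integral_le_of_norm_le_const (μ := μ)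
      (C := Λ * p (E.P S y - E.P S y'))
      (f := fun z => f (Q (R y + z)) - f (Q (R y' + z))) (ae_of_all _ fun z => by
        rw [Real.norm_eq_abs]
        refine (hf _ _).trans_eq ?_
        rw [map_add, map_add, hQR, hQR, add_sub_add_right_eq_sub])
    rw [Real.norm_eq_abs] at h1
    simpa using h1
  · intro y
    have h0 : f (E.P S y) = ∫ _z : Fin n → ℝ, f (E.P S y) ∂μ := by simp
    change |(∫ z, f (Q (R y + z)) ∂μ) - f (E.P S y)| ≤ κ
    rw [h0, ← integral_sub (hint y) (integrable_const _)]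
    have h1 := norm_integral_le_of_norm_le_const (μ := μ) (C := κ)
      (f := fun z => f (Q (R y + z)) - f (E.P S y)) (by
        filter_upwards [hdiff y] with z hz
        rwa [Real.norm_eq_abs])
    rw [Real.norm_eq_abs] at h1
    simpa using h1

end Pool.Agent.Helper8.DP
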