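import Pool.Agent.Helper8.DP.Defs

/-! Averages of nested projections are almost contractive for a given equivalent norm. -/

open Set Filter Topology

namespace Pool.Agent.Helper8.DP

open Pool.Agent.Helper94.UF (seminorm_sum_le)

set_option linter.unusedSectionVars false

variable {X : Type*} [NormedAddCommGroup X] [NormedSpace ℝ X] {ι : Type*} [Preorder ι]
  [IsDirectedOrder ι] [Nonempty ι] (E : DPS X ι)
variable {p : Seminorm ℝ X} {M : ℝ}

/-- First step: room for a correction. -/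
theorem lemA (hM : 0 < M) (hp : ∀ x, p x ≤ M * ‖x‖) (hq : ∀ x, ‖x‖ ≤ M * p x)
    (B : ι) {ε : ℝ} (hε : 0 < ε) :
    ∃ B' : ι, B ≤ B' ∧ ∀ x : X, ∃ u : X,
      E.P B' u = u ∧ E.P B u = 0 ∧ ‖u‖ ≤ 2 * E.C * M * p x ∧
        p (E.P B x + u) ≤ (1 + ε) * p x := by
  classical
  have hC := E.C0
  set η : ℝ := ε / (2 * M) with hη
  have hη0 : 0 < η := by positivity
  set T : Set X := {x | p x ≤ 1} with hT
  have hbdd : TotallyBounded (E.P B '' T) := by
    refine E.totallyBounded_P B (R := M) fun x hx => ?_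
    calc ‖x‖ ≤ M * p x := hq x
      _ ≤ M * 1 := by gcongr; exact hx
      _ = M := mul_one M
  obtain ⟨t, ht, htf, hcov⟩ := hbdd.exists_subset (Metric.dist_mem_uniformity hη0)
  have ht2 : ∀ y, y ∈ t → ∃ x : X, x ∈ T ∧ E.P B x = y := fun y hy => ht hy
  choose! g hg using ht2
  choose! tl htl using fun x : X => E.exists_tail x hη0
  obtain ⟨B', hB'⟩ := Finset.exists_le (insert B (htf.toFinset.image fun y => tl (g y)))
  have hsubB : B ≤ B' := hB' B (Finset.mem_insert_self _ _)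
  refine ⟨B', hsubB, fun x => ?_⟩
  by_cases hx0 : p x = 0
  · refine ⟨0, by simp, by simp, by simp [hx0], ?_⟩
    have h1 : ‖x‖ ≤ 0 := by have := hq x; rw [hx0, mul_zero] at this; exact this
    have h2 : x = 0 := norm_le_zero_iff.1 h1
    rw [h2]; simp
  · have hxpos : 0 < p x := lt_of_le_of_ne (apply_nonneg p x) (Ne.symm hx0)
    set c : ℝ := (p x)⁻¹ with hc
    have hcpos : 0 < c := inv_pos.2 hxpos
    have hcx : c • x ∈ T := by
      simp only [hT, mem_ofPred_eq, map_smul_eq_mul, Real.norm_eq_abs, abs_of_pos hcpos]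
      rw [hc, inv_mul_cancel₀ hx0]
    obtain ⟨y, hy, hxy⟩ := mem_iUnion₂.1 (hcov ⟨c • x, hcx, rfl⟩)
    have hgy : p (g y) ≤ 1 := (hg y hy).1
    have hry : E.P B (g y) = y := (hg y hy).2
    have hgn : ‖g y‖ ≤ M := by
      calc ‖g y‖ ≤ M * p (g y) := hq _
        _ ≤ M * 1 := by gcongr
        _ = M := mul_one M
    have hsub : tl (g y) ≤ B' :=
      hB' _ (Finset.mem_insert_of_mem (Finset.mem_image.2 ⟨y, htf.mem_toFinset.2 hy, rfl⟩))
    refine ⟨p x • (E.P B' (g y) - E.P B (g y)), ?_, ?_, ?_, ?_⟩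
    · rw [map_smul, map_sub, E.PP _ _ le_rfl, E.PP' _ _ hsubB]
    · rw [map_smul, map_sub, E.PP _ _ hsubB, E.PP _ _ le_rfl, sub_self, smul_zero]
    · rw [norm_smul, Real.norm_eq_abs, abs_of_pos hxpos, mul_comm]
      refine mul_le_mul_of_nonneg_right ?_ hxpos.le
      calc ‖E.P B' (g y) - E.P B (g y)‖ ≤ ‖E.P B' (g y)‖ + ‖E.P B (g y)‖ := norm_sub_le _ _
        _ ≤ E.C * ‖g y‖ + E.C * ‖g y‖ := add_le_add (E.bdd _ _) (E.bdd _ _)
        _ ≤ E.C * M + E.C * M := by gcongr
        _ = 2 * E.C * M := by ring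
    · have hdec : E.P B x + p x • (E.P B' (g y) - E.P B (g y)) =
          p x • ((E.P B (c • x) - y) + (E.P B' (g y) - g y) + g y) := by
        have hpc : p x * c = 1 := mul_inv_cancel₀ hx0
        rw [hry, map_smul]
        simp only [smul_add, smul_sub, smul_smul, hpc, one_smul]
        abel
      rw [hdec, map_smul_eq_mul, Real.norm_eq_abs, abs_of_pos hxpos, mul_comm]
      refine mul_le_mul_of_nonneg_right ?_ hxpos.le
      have h1 : p (E.P B (c • x) - y) ≤ M * η := by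
        refine (hp _).trans (mul_le_mul_of_nonneg_left ?_ hM.le)
        have h3 : dist (E.P B (c • x)) y < η := hxy
        rw [dist_eq_norm] at h3
        exact h3.le
      have h2 : p (E.P B' (g y) - g y) ≤ M * η := by
        refine (hp _).trans (mul_le_mul_of_nonneg_left ?_ hM.le)
        rw [norm_sub_rev]
        exact htl (g y) B' hsub
      have h3 : M * η = ε / 2 := by rw [hη]; field_simp
      calc p ((E.P B (c • x) - y) + (E.P B' (g y) - g y) + g y)
          ≤ p ((E.P B (c • x) - y) + (E.P B' (g y) - g y)) + p (g y) := map_add_le_add p _ _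
        _ ≤ (p (E.P B (c • x) - y) + p (E.P B' (g y) - g y)) + p (g y) := by
            gcongr; exact map_add_le_add p _ _
        _ ≤ (M * η + M * η) + 1 := by gcongr
        _ = 1 + ε := by rw [h3]; ring

/-- An average of `m` nested projections is an almost contraction. -/
theorem lemB (hM : 0 < M) (hp : ∀ x, p x ≤ M * ‖x‖) (hq : ∀ x, ‖x‖ ≤ M * p x)
    {ε : ℝ} (hε : 0 < ε) :
    ∃ (N : ι → ι) (m : ℕ), 0 < m ∧ (∀ B, B ≤ N B) ∧
      ∀ (B : ι) (x : X),
        p ((m : ℝ)⁻¹ • ∑ j ∈ Finset.range m, E.P (N^[j] B) x) ≤ (1 + ε) * p x := by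
  have hC := E.C0
  set ε' : ℝ := ε / 2 with hε'
  have hε'0 : 0 < ε' := by positivity
  choose N hN1 hN2 using fun B : ι => lemA E hM hp hq B hε'0
  set η : ℝ := ε / (2 * (M * (2 * E.C * M))) with hη
  have hη0 : 0 < η := by positivity
  obtain ⟨m, hm, hmavg⟩ := E.exists_avg hη0
  refine ⟨N, m, hm, hN1, fun B x => ?_⟩
  have hm0 : (0 : ℝ) < m := by exact_mod_cast hm
  have hmono : Monotone fun j => N^[j] B := monotone_nat_of_le_succ fun j => by
    rw [Function.iterate_succ_apply']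
    exact hN1 _
  choose u hu1 hu0 hu2 hu3 using fun j : ℕ => hN2 (N^[j] B) x
  have hpx := apply_nonneg p x
  have hdisj : NonOv (Finset.range m) (fun j => N^[j] B) (fun j => N (N^[j] B)) := by
    refine ⟨fun l _ => hN1 _, fun l _ l' _ hne => ?_⟩
    have key : ∀ i j, i < j → N (N^[i] B) ≤ N^[j] B := by
      intro i j hij
      rw [← Function.iterate_succ_apply' N i B]
      exact hmono (Nat.succ_le_of_lt hij)
    rcases lt_or_gt_of_ne hne with h | h
    · exact Or.inl (key _ _ h)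
    · exact Or.inr (key _ _ h)
  have hsum := hmavg (2 * E.C * M * p x) u _ _ (by positivity) hdisj
    (fun j _ => hu2 j) (fun j _ => hu1 j) (fun j _ => hu0 j)
  have hdec : (m : ℝ)⁻¹ • ∑ j ∈ Finset.range m, E.P (N^[j] B) x =
      (m : ℝ)⁻¹ • (∑ j ∈ Finset.range m, (E.P (N^[j] B) x + u j)) -
        (m : ℝ)⁻¹ • ∑ j ∈ Finset.range m, u j := by
    rw [Finset.sum_add_distrib, smul_add, add_sub_cancel_right]
  rw [hdec]
  have hminv : |(m : ℝ)⁻¹| = (m : ℝ)⁻¹ := abs_of_pos (inv_pos.2 hm0)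
  calc p ((m : ℝ)⁻¹ • (∑ j ∈ Finset.range m, (E.P (N^[j] B) x + u j)) -
        (m : ℝ)⁻¹ • ∑ j ∈ Finset.range m, u j)
      ≤ p ((m : ℝ)⁻¹ • (∑ j ∈ Finset.range m, (E.P (N^[j] B) x + u j))) +
        p ((m : ℝ)⁻¹ • ∑ j ∈ Finset.range m, u j) := map_sub_le_add p _ _
    _ = (m : ℝ)⁻¹ * p (∑ j ∈ Finset.range m, (E.P (N^[j] B) x + u j)) +
        (m : ℝ)⁻¹ * p (∑ j ∈ Finset.range m, u j) := by
        rw [map_smul_eq_mul, map_smul_eq_mul, Real.norm_eq_abs, hminv]
    _ ≤ (m : ℝ)⁻¹ * (∑ _j ∈ Finset.range m, (1 + ε') * p x) +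
        (m : ℝ)⁻¹ * (M * (η * m * (2 * E.C * M * p x))) := by
        gcongr
        · exact (seminorm_sum_le p _ _).trans (Finset.sum_le_sum fun j _ => hu3 j)
        · exact (hp _).trans (by gcongr)
    _ = (1 + ε') * p x + (η * (M * (2 * E.C * M))) * p x := by
        rw [Finset.sum_const, Finset.card_range, nsmul_eq_mul]
        field_simp
    _ = (1 + ε) * p x := by
        rw [hη, hε']
        field_simp
        ring

end Pool.Agent.Helper8.DP
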