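import Pool.Agent.Helper8.DP.ESheet

/-! One step of the embedding of `C(Q)` into `c_0(Γ)` with smooth coordinates. -/

open scoped ContDiff
open Set Filter Topology

namespace Pool.Agent.Helper8.DP

open Pool.Agent.Helper94.UF

set_option linter.unusedSectionVars false

/-- Separation of two real numbers by the gadget at the right scale. -/
theorem sep_aux {T : ℝ → ℝ} (T3 : ∀ s, |T s| ≤ |s|)
    (T6 : ∀ s, 8 ≤ |s| → |s| ≤ 64 → T s = s) {t ρ a a' b b' : ℝ} (ht : 0 < t)
    (h1 : 16 * t < |a|) (h2 : |a| ≤ 32 * t) (h3 : |a'| ≤ |a|) (hb : |b - a| ≤ t)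
    (hb' : |b' - a'| ≤ t) (hρ : |t * T (b / t) - t * T (b' / t)| ≤ ρ) :
    |b - b'| ≤ ρ ∨ |a - a'| ≤ 10 * ρ := by
  have e1 : |a| ≤ |b| + |b - a| := by
    have := abs_sub_abs_le_abs_sub a b
    rw [abs_sub_comm a b] at this
    linarith
  have e2 : |b| ≤ |a| + |b - a| := by
    have := abs_sub_abs_le_abs_sub b a
    linarith
  have e3 : |b'| ≤ |a'| + |b' - a'| := by
    have := abs_sub_abs_le_abs_sub b' a'
    linarith
  have hbt : |b / t| = |b| / t := by rw [abs_div, abs_of_pos ht]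
  have hbt' : |b' / t| = |b'| / t := by rw [abs_div, abs_of_pos ht]
  have f1 : T (b / t) = b / t := T6 _ (by rw [hbt, le_div_iff₀ ht]; linarith)
    (by rw [hbt, div_le_iff₀ ht]; linarith)
  have f2 : t * (b / t) = b := by field_simp
  rw [f1, f2] at hρ
  by_cases h : 8 * t ≤ |b'|
  · left
    have g1 : T (b' / t) = b' / t := T6 _ (by rw [hbt', le_div_iff₀ ht]; linarith)
      (by rw [hbt', div_le_iff₀ ht]; linarith)
    have g2 : t * (b' / t) = b' := by field_simp
    rw [g1, g2] at hρ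
    exact hρ
  · right
    push Not at h
    have g1 : |t * T (b' / t)| ≤ |b'| := by
      rw [abs_mul, abs_of_pos ht]
      calc t * |T (b' / t)| ≤ t * |b' / t| := mul_le_mul_of_nonneg_left (T3 _) ht.le
        _ = |b'| := by rw [hbt']; field_simp
    have g2 := abs_sub_abs_le_abs_sub b (t * T (b' / t))
    have g3 := abs_sub a a'
    linarith

theorem sep {T : ℝ → ℝ} (T3 : ∀ s, |T s| ≤ |s|)
    (T6 : ∀ s, 8 ≤ |s| → |s| ≤ 64 → T s = s) {ρ a a' : ℝ} {b b' : ℤ → ℝ}
    (hb : ∀ i, |b i - a| ≤ (2 : ℝ) ^ (-i)) (hb' : ∀ i, |b' i - a'| ≤ (2 : ℝ) ^ (-i))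
    (hρ0 : 0 ≤ ρ) (hρ : ∀ i : ℤ, |(2 : ℝ) ^ (-i) * T (b i / (2 : ℝ) ^ (-i)) -
      (2 : ℝ) ^ (-i) * T (b' i / (2 : ℝ) ^ (-i))| ≤ ρ) :
    (∃ i, |b i - b' i| ≤ ρ) ∨ |a - a'| ≤ 10 * ρ := by
  have key : ∀ {a a' : ℝ} {b b' : ℤ → ℝ}, (∀ i, |b i - a| ≤ (2 : ℝ) ^ (-i)) →
      (∀ i, |b' i - a'| ≤ (2 : ℝ) ^ (-i)) → (∀ i : ℤ, |(2 : ℝ) ^ (-i) * T (b i / (2 : ℝ) ^ (-i)) -
      (2 : ℝ) ^ (-i) * T (b' i / (2 : ℝ) ^ (-i))| ≤ ρ) → |a'| ≤ |a| →
      (∃ i, |b i - b' i| ≤ ρ) ∨ |a - a'| ≤ 10 * ρ := by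
    intro a a' b b' hb hb' hρ h
    by_cases h0 : a = 0
    · right
      rw [h0, abs_zero] at h
      have : a' = 0 := abs_nonpos_iff.1 h
      rw [h0, this, sub_zero, abs_zero]
      positivity
    · have hpos : 0 < |a| / 16 := by positivity
      obtain ⟨n, hn⟩ := exists_mem_Ioc_zpow hpos (one_lt_two : (1 : ℝ) < 2)
      have ht : (0 : ℝ) < 2 ^ n := by positivity
      have hn1 : (2 : ℝ) ^ n < |a| / 16 := hn.1
      have hn2 : |a| / 16 ≤ (2 : ℝ) ^ (n + 1) := hn.2
      rw [zpow_add₀ two_ne_zero, zpow_one] at hn2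
      have e : -(-n) = n := neg_neg n
      have c1 := hb (-n)
      have c2 := hb' (-n)
      have c3 := hρ (-n)
      rw [e] at c1 c2 c3
      rcases sep_aux T3 T6 ht (by linarith) (by linarith) h c1 c2 c3 with h4 | h4
      · exact Or.inl ⟨-n, h4⟩
      · exact Or.inr h4
  rcases le_total |a'| |a| with h | h
  · exact key hb hb' hρ h
  · rcases key hb' hb (fun i => by rw [abs_sub_comm]; exact hρ i) h with ⟨i, hi⟩ | h4
    · exact Or.inl ⟨i, by rw [abs_sub_comm]; exact hi⟩
    · right; rw [abs_sub_comm]; exact h4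

theorem finite_big {Q : Type*} [TopologicalSpace Q] [CompactSpace Q] {r : Q → ℕ} {n : ℕ}
    (h : GoodRank r n) (w : C(Q, ℝ)) (hw : ∀ k, 1 ≤ r k → w k = 0) {t : ℝ} (ht : 0 < t) :
    {k : Q | t ≤ |w k|}.Finite := by
  have hcl : IsClosed {k : Q | t ≤ |w k|} := isClosed_le continuous_const (by fun_prop)
  have hc : IsCompact {k : Q | t ≤ |w k|} := hcl.isCompact
  have hr0 : ∀ k ∈ {k : Q | t ≤ |w k|}, r k = 0 := by
    intro k hk
    by_contra hne
    have h1 := hw k (by omega)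
    have h2 : t ≤ |w k| := hk
    rw [h1, abs_zero] at h2
    linarith
  obtain ⟨F, _, hF⟩ := hc.elim_nhds_subcover (fun k => {k}) fun k hk => by
    obtain ⟨V, hV, hkV, _, hrV⟩ := h.2 k Set.univ univ_mem
    filter_upwards [hV.isOpen.mem_nhds hkV] with k' hk'
    by_contra hne
    have := hrV k' hk' hne
    rw [hr0 k hk] at this
    omega
  refine F.finite_toSet.subset fun k hk => ?_
  obtain ⟨k', hk', he⟩ := mem_iUnion₂.1 (hF hk)
  rw [mem_singleton_iff] at he
  rw [he]
  exact hk'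

theorem finite_zpow {α β : ℝ} (hα : 0 < α) : {i : ℤ | α < (2 : ℝ) ^ (-i) ∧ (2 : ℝ) ^ (-i) < β}.Finite := by
  obtain ⟨N, hN⟩ := exists_pow_lt_of_lt_one hα (show (1 / 2 : ℝ) < 1 by norm_num)
  obtain ⟨M, hM⟩ := pow_unbounded_of_one_lt β (one_lt_two : (1 : ℝ) < 2)
  refine (Set.finite_Ioo (-(M : ℤ)) N).subset fun i hi => ⟨?_, ?_⟩
  · by_contra hc
    push Not at hc
    have h1 : (2 : ℝ) ^ (M : ℤ) ≤ (2 : ℝ) ^ (-i) := zpow_le_zpow_right₀ one_le_two (by omega)
    rw [zpow_natCast] at h1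
    linarith [hi.2]
  · by_contra hc
    push Not at hc
    have h1 : (2 : ℝ) ^ (-i) ≤ (2 : ℝ) ^ (-(N : ℤ)) := zpow_le_zpow_right₀ one_le_two (by omega)
    have h2 : (2 : ℝ) ^ (-(N : ℤ)) = (1 / 2) ^ N := by
      rw [zpow_neg, zpow_natCast, one_div, inv_pow]
    rw [h2] at h1
    linarith [hi.1]

theorem st_STEP.{u, v} (hE : ST_EXT.{u}) (hG : ST_GAD) : ST_STEP.{u, v} := by
  intro Q _ _ _ r n h _ Γ K' hA
  classical
  obtain ⟨ext, Λ, hΛ, hE1, hE2⟩ := hE Q r n h
  obtain ⟨T, LT, T1, LT0, T2, T3, T4, T5, T6⟩ := hG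
  have hpow : ∀ i : ℤ, (0 : ℝ) < 2 ^ (-i) := fun i => by positivity
  choose s hs1 hs2 hs3 using fun (k : Q) (i : ℤ) =>
    hA (fun y => ext y k) Λ hΛ.le (fun y y' => by
      refine le_trans ?_ (hE1 y y')
      have := (ext y - ext y').norm_coe_le_norm k
      rwa [ContinuousMap.sub_apply, Real.norm_eq_abs] at this) ((2 : ℝ) ^ (-i)) (hpow i)
  have hres : ∀ x y : C(Q, ℝ), ‖restr r x - restr r y‖ ≤ ‖x - y‖ := fun x y => by
    rw [← map_sub]
    exact (ContinuousMap.norm_le _ (norm_nonneg _)).2 fun k => (x - y).norm_coe_le_norm _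
  have hval : ∀ (x y : C(Q, ℝ)) (k : Q), |x k - y k| ≤ ‖x - y‖ := fun x y k => by
    have := (x - y).norm_coe_le_norm k
    rwa [ContinuousMap.sub_apply, Real.norm_eq_abs] at this
  have hc := K'.c0
  -- the lower constant
  set B : ℝ := 10 + (3 * Λ + 1) / K'.c with hB
  have hB0 : 0 < B := by positivity
  refine ⟨⟨fun x γ => Sum.elim (fun γ => K'.Φ (restr r x) γ)
    (fun q : {k : Q // r k = 0} × ℤ => (2 : ℝ) ^ (-q.2) *
      T ((x q.1.1 - s q.1.1 q.2 (restr r x)) / (2 : ℝ) ^ (-q.2))) γ, ?_, ?_,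
    max K'.L (LT * (1 + Λ)), lt_of_lt_of_le K'.L0 (le_max_left _ _), ?_, B⁻¹, inv_pos.2 hB0, ?_⟩⟩
  · -- vanishing at infinity
    intro x t ht
    set w : C(Q, ℝ) := x - ext (restr r x) with hw
    have hw0 : ∀ k, 1 ≤ r k → w k = 0 := fun k hk => by
      have := hE2 (restr r x) ⟨k, hk⟩
      rw [hw, ContinuousMap.sub_apply, this, restr_apply, sub_self]
    have hfin := finite_big h w hw0 (show 0 < 3 * (t / 128) by positivity)
    have hfin2 : {k : {k : Q // r k = 0} | 3 * (t / 128) ≤ |w k.1|}.Finite :=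
      Set.Finite.preimage (f := fun k : {k : Q // r k = 0} => k.1)
        Subtype.val_injective.injOn hfin
    have hz := finite_zpow (α := t / 128) (β := (‖w‖ + 1)) (by positivity)
    refine (((K'.isC0 (restr r x) t ht).image Sum.inl).union
      ((hfin2.prod hz).image Sum.inr)).subset ?_
    rintro (γ | ⟨k, i⟩) hγ
    · exact Or.inl ⟨γ, hγ, rfl⟩
    · refine Or.inr ⟨(k, i), ?_, rfl⟩
      have hγ' : t < |(2 : ℝ) ^ (-i) * T ((x k.1 - s k.1 i (restr r x)) / (2 : ℝ) ^ (-i))| := hγ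
      set b : ℝ := x k.1 - s k.1 i (restr r x) with hb
      have hp := hpow i
      rw [abs_mul, abs_of_pos hp] at hγ'
      have h1 : t / 128 < (2 : ℝ) ^ (-i) := by
        have := T4 (b / (2 : ℝ) ^ (-i))
        rw [div_lt_iff₀ (by norm_num)]
        nlinarith
      have h2 : 4 < |b / (2 : ℝ) ^ (-i)| := by
        by_contra hcon
        push Not at hcon
        rw [T5 _ hcon, abs_zero, mul_zero] at hγ'
        linarith
      rw [abs_div, abs_of_pos hp, lt_div_iff₀ hp] at h2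
      have h3 : |b| ≤ |w k.1| + (2 : ℝ) ^ (-i) := by
        have e1 : b = w k.1 + (ext (restr r x) k.1 - s k.1 i (restr r x)) := by
          rw [hw, ContinuousMap.sub_apply, hb]; ring
        rw [e1]
        exact (abs_add_le _ _).trans (by gcongr; exact (hs3 k.1 i _).le)
      have h4 : |w k.1| ≤ ‖w‖ := by
        have := w.norm_coe_le_norm k.1
        rwa [Real.norm_eq_abs] at this
      exact ⟨by change 3 * (t / 128) ≤ |w k.1|; linarith, h1, by linarith⟩
  · -- smoothness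
    rintro (γ | ⟨k, i⟩)
    · exact (K'.smooth γ).comp (restr r).contDiff
    · change ContDiff ℝ ∞ fun x : C(Q, ℝ) => (2 : ℝ) ^ (-i) *
        T ((x k.1 - s k.1 i (restr r x)) / (2 : ℝ) ^ (-i))
      have h1 : ContDiff ℝ ∞ fun x : C(Q, ℝ) => x k.1 :=
        (ContinuousMap.evalCLM ℝ k.1 : C(Q, ℝ) →L[ℝ] ℝ).contDiff
      exact contDiff_const.mul (T1.comp ((h1.sub
        ((hs1 k.1 i).comp (restr r).contDiff)).div_const _))
  · -- Lipschitz
    rintro x y (γ | ⟨k, i⟩)
    · change |K'.Φ (restr r x) γ - K'.Φ (restr r y) γ| ≤ _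
      have hL := K'.L0
      refine (K'.upper _ _ _).trans ?_
      calc K'.L * ‖restr r x - restr r y‖ ≤ K'.L * ‖x - y‖ := by gcongr; exact hres x y
        _ ≤ _ := mul_le_mul_of_nonneg_right (le_max_left _ _) (norm_nonneg _)
    · change |(2 : ℝ) ^ (-i) * T ((x k.1 - s k.1 i (restr r x)) / (2 : ℝ) ^ (-i)) -
        (2 : ℝ) ^ (-i) * T ((y k.1 - s k.1 i (restr r y)) / (2 : ℝ) ^ (-i))| ≤ _
      have hp := hpow i
      rw [← mul_sub, abs_mul, abs_of_pos hp]
      have h1 := T2 ((x k.1 - s k.1 i (restr r x)) / (2 : ℝ) ^ (-i))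
        ((y k.1 - s k.1 i (restr r y)) / (2 : ℝ) ^ (-i))
      rw [← sub_div, abs_div, abs_of_pos hp] at h1
      have h2 : |x k.1 - s k.1 i (restr r x) - (y k.1 - s k.1 i (restr r y))| ≤
          (1 + Λ) * ‖x - y‖ := by
        have e1 : x k.1 - s k.1 i (restr r x) - (y k.1 - s k.1 i (restr r y)) =
            (x k.1 - y k.1) - (s k.1 i (restr r x) - s k.1 i (restr r y)) := by ring
        rw [e1]
        have e2 := hs2 k.1 i (restr r x) (restr r y)
        have e3 : Λ * ‖restr r x - restr r y‖ ≤ Λ * ‖x - y‖ := by gcongr; exact hres x y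
        have e4 := abs_sub (x k.1 - y k.1) (s k.1 i (restr r x) - s k.1 i (restr r y))
        have e5 := hval x y k.1
        linarith
      calc (2 : ℝ) ^ (-i) * |T ((x k.1 - s k.1 i (restr r x)) / (2 : ℝ) ^ (-i)) -
            T ((y k.1 - s k.1 i (restr r y)) / (2 : ℝ) ^ (-i))|
          ≤ (2 : ℝ) ^ (-i) * (LT * (|x k.1 - s k.1 i (restr r x) -
            (y k.1 - s k.1 i (restr r y))| / (2 : ℝ) ^ (-i))) := by gcongr
        _ = LT * |x k.1 - s k.1 i (restr r x) - (y k.1 - s k.1 i (restr r y))| := by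
            field_simp
        _ ≤ LT * ((1 + Λ) * ‖x - y‖) := by gcongr
        _ = LT * (1 + Λ) * ‖x - y‖ := by ring
        _ ≤ _ := mul_le_mul_of_nonneg_right (le_max_right _ _) (norm_nonneg _)
  · -- the lower estimate
    intro x y ρ hρ hle
    have hN : K'.c * ‖restr r x - restr r y‖ ≤ ρ :=
      K'.lower _ _ ρ hρ fun γ => hle (Sum.inl γ)
    have hN' : ‖restr r x - restr r y‖ ≤ ρ / K'.c := by
      rw [le_div_iff₀ hc]; linarith
    have hρc : 0 ≤ ρ / K'.c := by positivity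
    have hBρ : B * ρ = 10 * ρ + 3 * Λ * (ρ / K'.c) + ρ / K'.c := by
      rw [hB]; field_simp
      ring
    rw [inv_mul_le_iff₀ hB0]
    refine (ContinuousMap.norm_le _ (by positivity)).2 fun k => ?_
    rw [ContinuousMap.sub_apply, Real.norm_eq_abs, hBρ]
    have hΛρ : 0 ≤ Λ * (ρ / K'.c) := by positivity
    by_cases hk : 1 ≤ r k
    · have h1 := (restr r x - restr r y).norm_coe_le_norm ⟨k, hk⟩
      rw [ContinuousMap.sub_apply, restr_apply, restr_apply, Real.norm_eq_abs] at h1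
      have h2 : |x k - y k| ≤ ‖restr r x - restr r y‖ := h1
      linarith
    · have hk0 : r k = 0 := by omega
      set a : ℝ := x k - ext (restr r x) k with ha
      set a' : ℝ := y k - ext (restr r y) k with ha'
      have hext : |ext (restr r x) k - ext (restr r y) k| ≤ Λ * (ρ / K'.c) := by
        have e1 := hval (ext (restr r x)) (ext (restr r y)) k
        have e2 := hE1 (restr r x) (restr r y)
        have e3 : Λ * ‖restr r x - restr r y‖ ≤ Λ * (ρ / K'.c) := by gcongr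
        linarith
      have hsk : ∀ i, |s k i (restr r x) - s k i (restr r y)| ≤ Λ * (ρ / K'.c) := fun i =>
        (hs2 k i _ _).trans (by gcongr)
      have hsep := sep T3 T6 (ρ := ρ) (a := a) (a' := a')
        (b := fun i => x k - s k i (restr r x)) (b' := fun i => y k - s k i (restr r y))
        (fun i => by
          have := (hs3 k i (restr r x)).le
          have e : x k - s k i (restr r x) - a = ext (restr r x) k - s k i (restr r x) := by
            rw [ha]; ring
          change |x k - s k i (restr r x) - a| ≤ _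
          rw [e]; exact this)
        (fun i => by
          have := (hs3 k i (restr r y)).le
          have e : y k - s k i (restr r y) - a' = ext (restr r y) k - s k i (restr r y) := by
            rw [ha']; ring
          change |y k - s k i (restr r y) - a'| ≤ _
          rw [e]; exact this) hρ
        (fun i => hle (Sum.inr (⟨k, hk0⟩, i)))
      rcases hsep with ⟨i, hi⟩ | h10
      · have e1 : x k - y k = (x k - s k i (restr r x) - (y k - s k i (restr r y))) +
            (s k i (restr r x) - s k i (restr r y)) := by ring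
        rw [e1]
        refine (abs_add_le _ _).trans ?_
        have := hsk i
        have hi' : |x k - s k i (restr r x) - (y k - s k i (restr r y))| ≤ ρ := hi
        linarith
      · have e1 : x k - y k = (a - a') + (ext (restr r x) k - ext (restr r y) k) := by
          rw [ha, ha']; ring
        rw [e1]
        refine (abs_add_le _ _).trans ?_
        linarith

end Pool.Agent.Helper8.DP
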